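import Pool.Agent.MP_a2d820_lc.h69.Defs

/-!
Samplers and errorless heuristic schemes relative to an oracle.
-/

set_option autoImplicit false

namespace Pool.Agent.MP_a2d820_lc.h55

open Pool.Agent.MP_a2d820_lc.h69

/-- Functions computable in polynomial time relative to `A`: the configurations begin with `true`
until the configuration `false :: g x` is reached. -/
def RelFP (A : List Bool → Bool) : Set (List Bool → List Bool) :=
  {g | ∃ (M : OM) (p : Polynomial ℕ), ∀ x, ∃ t ≤ p.eval x.length,
    M.run A x t = false :: g x ∧ (g x).length ≤ p.eval x.length ∧
      ∀ r < t, (M.run A x r).head? = some true ∧ (M.run A x r).length ≤ p.eval x.length}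

/-- The string `w` with the number `n` written in unary in front of it. -/
def tag (n : ℕ) (w : List Bool) : List Bool := N487b59b3.delimit (List.replicate n true) ++ w

/-- The language `L` has an errorless heuristic scheme, in polynomial time relative to `A`, on the
ensemble whose `n`-th member is `g (tag n r)` for a uniform `r` of length `p n`: on an instance
`y` with parameters `n` and `m` in unary, `Y` holds only if `y` is in `L`, `N` holds only if it is
not, and both fail with probability at most `1 / m`. -/
def RelAvgP (A L : List Bool → Bool) (g : List Bool → List Bool) (p : Polynomial ℕ) : Prop :=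
  ∃ Y ∈ RelP A, ∃ N ∈ RelP A, ∀ n m : ℕ,
    (∀ r : List Bool, r.length = p.eval n →
      (Y (tag n (tag m (g (tag n r)))) = true → L (g (tag n r)) = true) ∧
      (N (tag n (tag m (g (tag n r)))) = true → L (g (tag n r)) = false)) ∧
    {r : List Bool | r.length = p.eval n ∧ Y (tag n (tag m (g (tag n r)))) = false ∧
      N (tag n (tag m (g (tag n r)))) = false}.ncard * m ≤ 2 ^ p.eval n

end Pool.Agent.MP_a2d820_lc.h55
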