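import Pool.Agent.MP_a2d820_lc.h69.Levels
import Pool.Agent.MP_a2d820_lc.h55.Defs

-- ======== part 0: formerly Pool.Agent.MP_a2d820_lc.h55.Sw
section MrgPart0

/-!
Certificates and a switching lemma for variables with many values.
-/

set_option autoImplicit false

namespace Pool.Agent.MP_a2d820_lc.h55

open Finset Pool.Agent.MP_a2d820_lc.h69

variable {ι α β γ : Type}

/-- Every value different from `b` is fixed by at most `d` coordinates that form a set in `P`. -/
def Or1 (P : Finset ι → Prop) (d : ℕ) (b : β) (f : (ι → α) → β) : Prop :=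
  ∀ c, f c ≠ b → ∃ D, P D ∧ D.card ≤ d ∧ ∀ c', (∀ v ∈ D, c' v = c v) → f c' = f c

/-- Every value is fixed by at most `d` coordinates that form a set in `P`. -/
def Cert (P : Finset ι → Prop) (d : ℕ) (f : (ι → α) → β) : Prop :=
  ∀ c, ∃ D, P D ∧ D.card ≤ d ∧ ∀ c', (∀ v ∈ D, c' v = c v) → f c' = f c

/-- The family is closed under finite unions. -/
def Cl [DecidableEq ι] (P : Finset ι → Prop) : Prop := P ∅ ∧ ∀ D D', P D → P D' → P (D ∪ D')

theorem Cert.mono {P : Finset ι → Prop} {d d' : ℕ} {f : (ι → α) → β} (h : Cert P d f)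
    (hd : d ≤ d') : Cert P d' f := fun c => by
  obtain ⟨D, h1, h2, h3⟩ := h c
  exact ⟨D, h1, h2.trans hd, h3⟩

theorem Cert.or1 {P : Finset ι → Prop} {d : ℕ} {f : (ι → α) → β} (h : Cert P d f) (b : β) :
    Or1 P d b f := fun c _ => h c

theorem Cert.const {P : Finset ι → Prop} {f : (ι → α) → β} (h : Cert P 0 f) (c c' : ι → α) :
    f c' = f c := by
  obtain ⟨D, -, h2, h3⟩ := h c
  obtain rfl : D = ∅ := card_eq_zero.1 (by omega)
  exact h3 c' (by simp)

variable [DecidableEq ι] {P : Finset ι → Prop}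

theorem cert_const (hP : Cl P) (d : ℕ) (b : β) : Cert P d fun _ : ι → α => b :=
  fun _ => ⟨∅, hP.1, by simp, fun _ _ => rfl⟩

theorem Cert.bind (hP : Cl P) {d d' : ℕ} {g : (ι → α) → γ} {h : γ → (ι → α) → β}
    (hg : Cert P d g) (hh : ∀ c, Cert P d' (h (g c))) : Cert P (d + d') fun c => h (g c) c := by
  intro c
  obtain ⟨D, a1, a2, a3⟩ := hg c
  obtain ⟨D', b1, b2, b3⟩ := hh c c
  refine ⟨D ∪ D', hP.2 _ _ a1 b1, (card_union_le _ _).trans (by omega), fun c' hc => ?_⟩
  beta_reduce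
  rw [a3 c' fun v hv => hc v (mem_union_left _ hv), b3 c' fun v hv => hc v (mem_union_right _ hv)]

theorem cert_dt (hP : Cl P) {V : Type} {Q : Set ((V → Bool) → Bool)} {w d : ℕ}
    {f : (V → Bool) → Bool} (h : DTq Q w f) {τ : (ι → α) → V → Bool}
    (hQ : ∀ g ∈ Q, Cert P d (g ∘ τ)) : Cert P (w * d) (f ∘ τ) := by
  induction h with
  | const _ b => exact cert_const hP _ b
  | @node _ g f₀ f₁ hg _ _ ih₀ ih₁ =>
    refine (Cert.bind hP (h := fun b c => bif b then f₁ (τ c) else f₀ (τ c)) (hQ g hg)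
      fun c => ?_).mono (by rw [Nat.succ_mul, add_comm])
    cases (g ∘ τ) c
    · exact ih₀
    · exact ih₁

theorem or1_isOr (hP : Cl P) {V : Type} {Q : Set ((V → Bool) → Bool)} {w d : ℕ}
    {f : (V → Bool) → Bool} (h : IsOr Q w f) {τ : (ι → α) → V → Bool}
    (hQ : ∀ g ∈ Q, Cert P d (g ∘ τ)) : Or1 P (w * d) false (f ∘ τ) := by
  obtain ⟨G, h1, h2⟩ := h
  intro c hc
  have h3 : f (τ c) = true := by simpa using hc
  obtain ⟨g, hg, h4⟩ := (h2 _).1 h3
  obtain ⟨D, a1, a2, a3⟩ := cert_dt hP (h1 g hg) hQ c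
  exact ⟨D, a1, a2, fun c' hc' => ((h2 _).2 ⟨g, hg, (a3 c' hc').trans h4⟩).trans h3.symm⟩

/-- A term: a set of variables and a test. -/
abbrev Tm (ι α : Type) := Finset ι × ((ι → α) → Prop)

/-- The terms are small and read only their own variables. -/
def Ok (P : Finset ι → Prop) (w : ℕ) (F : List (Tm ι α)) : Prop :=
  ∀ C ∈ F, P C.1 ∧ C.1.card ≤ w ∧ ∀ y y', (∀ v ∈ C.1, y' v = y v) → C.2 y → C.2 y'

/-- The term can be satisfied with values in `En` for the free variables. -/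
def lv (En : ι → α → Prop) (T : Finset ι) (y : ι → α) (C : Tm ι α) : Prop :=
  ∃ σ, (∀ v ∈ T, En v (σ v)) ∧ C.2 (T.piecewise σ y)

open Classical in
/-- The canonical tree has a branch through `s` terms. -/
def Bd (En Pa : ι → α → Prop) (F : List (Tm ι α)) : ℕ → Finset ι → (ι → α) → Prop
  | 0, _, _ => True
  | s + 1, T, y => ∃ C, F.find? (fun C => decide (lv En T y C)) = some C ∧ (C.1 ∩ T).Nonempty ∧
      ∃ π, (∀ v, Pa v (π v)) ∧ Bd En Pa F s (T \ C.1) ((C.1 ∩ T).piecewise π y)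

theorem not_bd (hP : Cl P) {En Pa : ι → α → Prop} {F : List (Tm ι α)} {w : ℕ} (hF : Ok P w F)
    (hl : ∀ C ∈ F, ∀ T y π, (∀ v, Pa v (π v)) → C.2 (Finset.piecewise T π y) → lv En T y C)
    (s : ℕ) (T : Finset ι) (y : ι → α) (h : ¬Bd En Pa F s T y) (z : ι → α) (hz : ∀ v, Pa v (z v)) :
    ∃ D, P D ∧ D.card + w ≤ s * w ∧
      ((∃ C ∈ F, ∀ z', (∀ v ∈ D ∩ T, z' v = z v) → C.2 (T.piecewise z' y)) ∨
        ∀ C ∈ F, ∀ z', (∀ v, Pa v (z' v)) → (∀ v ∈ D ∩ T, z' v = z v) →
          ¬C.2 (T.piecewise z' y)) := by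
  classical
  induction s generalizing T y with
  | zero => exact absurd trivial h
  | succ s ih =>
    have h0 : (∅ : Finset ι).card + w ≤ (s + 1) * w := by simp [Nat.succ_mul]
    rcases hC : F.find? (fun C => decide (lv En T y C)) with _ | C
    · refine ⟨∅, hP.1, h0, Or.inr fun C hC' z' hz' _ hs => ?_⟩
      simpa [hl C hC' T y z' hz' hs] using List.find?_eq_none.1 hC C hC'
    have hm := List.mem_of_find?_eq_some hC
    obtain ⟨σ, -, hσ⟩ : lv En T y C := by simpa using List.find?_some hC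
    obtain ⟨c1, c2, c3⟩ := hF C hm
    by_cases hne : (C.1 ∩ T).Nonempty
    · obtain ⟨D, a1, a2, a3⟩ := ih (T \ C.1) ((C.1 ∩ T).piecewise z y) fun hb =>
        h ⟨C, hC, hne, z, hz, hb⟩
      have e : ∀ z', (∀ v ∈ (C.1 ∪ D) ∩ T, z' v = z v) → (∀ v ∈ D ∩ (T \ C.1), z' v = z v) ∧
          T.piecewise z' y = (T \ C.1).piecewise z' ((C.1 ∩ T).piecewise z y) := by
        refine fun z' hz' => ⟨fun v hv => hz' v (by simp at hv ⊢; tauto), funext fun v => ?_⟩
        by_cases h1 : v ∈ T <;> by_cases h2 : v ∈ C.1 <;> simp [Finset.piecewise, h1, h2]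
        exact hz' v (by simp [h1, h2])
      refine ⟨C.1 ∪ D, hP.2 _ _ c1 a1, ?_, ?_⟩
      · have := card_union_le C.1 D
        rw [Nat.succ_mul]
        omega
      · rcases a3 with ⟨C', b1, b2⟩ | a3
        · exact Or.inl ⟨C', b1, fun z' hz' => (e z' hz').2 ▸ b2 z' (e z' hz').1⟩
        · exact Or.inr fun C' b1 z' b2 hz' => (e z' hz').2 ▸ a3 C' b1 z' b2 (e z' hz').1
    · refine ⟨∅, hP.1, h0, Or.inl ⟨C, hm, fun z' _ => c3 _ _ (fun v hv => ?_) hσ⟩⟩
      have hT : v ∉ T := fun hT => hne ⟨v, mem_inter.2 ⟨hv, hT⟩⟩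
      rw [piecewise_eq_of_notMem _ _ _ hT, piecewise_eq_of_notMem _ _ _ hT]

variable [Fintype ι] [Fintype α] [DecidableEq α]

open Classical in
/-- The branches that can be decoded from a full assignment. -/
noncomputable def Dc (F : List (Tm ι α)) : ℕ → (ι → α) → Finset (Finset ι × (ι → α))
  | 0, y => {(∅, y)}
  | s + 1, y => match F.find? (fun C => decide (C.2 y)) with
    | none => ∅
    | some C => (C.1.powerset.erase ∅).biUnion fun D =>
        (Fintype.piFinset fun v => if v ∈ D then univ else {y v}).biUnion fun y₁ =>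
          ((Dc F s y₁).filter (Disjoint D ·.1)).image fun q => (D ∪ q.1, q.2)

theorem dc_off {F : List (Tm ι α)} (s : ℕ) (y : ι → α) :
    ∀ q ∈ Dc F s y, ∀ v ∉ q.1, q.2 v = y v := by
  classical
  induction s generalizing y with
  | zero => simp [Dc]
  | succ s ih =>
    intro q hq v hv
    rcases hC : F.find? (fun C => decide (C.2 y)) with _ | C
    · simp [Dc, hC] at hq
    simp only [Dc, hC, mem_biUnion, mem_image, mem_filter, Fintype.mem_piFinset] at hq
    obtain ⟨D, -, y₁, h1, q₁, ⟨h2, -⟩, rfl⟩ := hq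
    rw [mem_union, not_or] at hv
    have := h1 v
    rw [if_neg hv.1, mem_singleton] at this
    exact (ih _ _ h2 v hv.2).trans this

theorem exists_dc (hP : Cl P) {En Pa : ι → α → Prop} {F : List (Tm ι α)} {w : ℕ} (hF : Ok P w F)
    (s : ℕ) (T : Finset ι) (y : ι → α) (hy : ∀ v ∈ T, En v (y v)) (h : Bd En Pa F s T y) :
    ∃ y', ∃ q ∈ Dc F s y', (∃ D', P D' ∧ q.1 = D' ∩ T) ∧ (∀ v ∉ q.1, y' v = y v) ∧
      ∀ v ∈ q.1, En v (y' v) ∧ Pa v (q.2 v) := by
  classical
  induction s generalizing T y with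
  | zero => exact ⟨y, (∅, y), by simp [Dc], ⟨∅, hP.1, by simp⟩, fun _ _ => rfl, by simp⟩
  | succ s ih =>
    obtain ⟨C, hC, hne, π, hπ, hb⟩ := h
    obtain ⟨y₁, q, h1, ⟨D', h2, h2'⟩, h3, h4⟩ := ih _ _ (fun v hv => by
      rw [piecewise_eq_of_notMem _ _ _ fun h => (mem_sdiff.1 hv).2 (mem_inter.1 h).1]
      exact hy v (mem_sdiff.1 hv).1) hb
    obtain ⟨σ, hσ', hσ⟩ : lv En T y C := by simpa using List.find?_some hC
    obtain ⟨c1, c2, c3⟩ := hF C (List.mem_of_find?_eq_some hC)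
    have hd : Disjoint (C.1 ∩ T) q.1 := disjoint_left.2 fun v hv hv' => by
      rw [h2'] at hv'
      exact (mem_sdiff.1 (mem_inter.1 hv').2).2 (mem_inter.1 hv).1
    have hoff : ∀ v ∉ (C.1 ∩ T) ∪ q.1, (C.1 ∩ T).piecewise σ y₁ v = y v := by
      intro v hv
      rw [mem_union, not_or] at hv
      rw [piecewise_eq_of_notMem _ _ _ hv.1, h3 v hv.2, piecewise_eq_of_notMem _ _ _ hv.1]
    have he : (C.1 ∩ T) ∪ q.1 = (C.1 ∪ D') ∩ T := by
      rw [h2']
      ext v
      simp
      tauto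
    have hsub : (C.1 ∩ T) ∪ q.1 ⊆ T := he ▸ inter_subset_right
    have hon : ∀ v ∈ (C.1 ∩ T) ∪ q.1, En v ((C.1 ∩ T).piecewise σ y₁ v) ∧ Pa v (q.2 v) := by
      intro v hv
      by_cases h5 : v ∈ C.1 ∩ T
      · have h6 := disjoint_left.1 hd h5
        rw [piecewise_eq_of_mem _ _ _ h5, dc_off _ _ _ h1 v h6, h3 v h6,
          piecewise_eq_of_mem _ _ _ h5]
        exact ⟨hσ' v (hsub hv), hπ v⟩
      · rw [piecewise_eq_of_notMem _ _ _ h5]
        exact h4 v ((mem_union.1 hv).resolve_left h5)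
    have hf : F.find? (fun C' => decide (C'.2 ((C.1 ∩ T).piecewise σ y₁))) = some C := by
      rw [List.find?_eq_some_iff_append] at hC ⊢
      obtain ⟨-, as, bs, e, hC⟩ := hC
      refine ⟨decide_eq_true (c3 _ _ (fun v hv => ?_) hσ), as, bs, e, fun C' hC' => ?_⟩
      · by_cases hT : v ∈ T
        · rw [piecewise_eq_of_mem _ _ _ (mem_inter.2 ⟨hv, hT⟩), piecewise_eq_of_mem _ _ _ hT]
        · rw [hoff v fun h => hT (hsub h), piecewise_eq_of_notMem _ _ _ hT]
      · have := hC C' hC'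
        simp only [Bool.not_eq_true', decide_eq_false_iff_not] at this ⊢
        refine fun hs => this ⟨(C.1 ∩ T).piecewise σ y₁, fun v hv => ?_, ?_⟩
        · by_cases h5 : v ∈ (C.1 ∩ T) ∪ q.1
          · exact (hon v h5).1
          · rw [hoff v h5]
            exact hy v hv
        · convert hs using 1
          funext v
          by_cases hT : v ∈ T
          · exact piecewise_eq_of_mem _ _ _ hT
          · rw [hoff v fun h => hT (hsub h), piecewise_eq_of_notMem _ _ _ hT]
    refine ⟨(C.1 ∩ T).piecewise σ y₁, ((C.1 ∩ T) ∪ q.1, q.2), ?_, ⟨_, hP.2 _ _ c1 h2, he⟩, hoff, hon⟩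
    simp only [Dc, hf, mem_biUnion, mem_image, mem_filter, mem_erase, mem_powerset,
      Fintype.mem_piFinset]
    refine ⟨C.1 ∩ T, ⟨hne.ne_empty, inter_subset_left⟩, y₁, fun v => ?_, q, ⟨h1, hd⟩, rfl⟩
    split_ifs with hv
    · exact mem_univ _
    · rw [piecewise_eq_of_notMem _ _ _ hv, mem_singleton]

theorem sum_dc {F : List (Tm ι α)} {w : ℕ} (hF : Ok P w F) {wt : α → α → ℝ}
    (h0 : ∀ a b, 0 ≤ wt a b) {x : ℝ} (hx : 0 ≤ x) (hwt : ∀ a, ∑ b, wt a b ≤ x) (s : ℕ) (y : ι → α) :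
    ∑ q ∈ Dc F s y, ∏ v ∈ q.1, wt (y v) (q.2 v) ≤ ((1 + x) ^ w - 1) ^ s := by
  classical
  have hl : 0 ≤ (1 + x) ^ w - 1 := sub_nonneg.2 (one_le_pow₀ (by linarith))
  have hp : ∀ (y : ι → α) (q : Finset ι × (ι → α)), 0 ≤ ∏ v ∈ q.1, wt (y v) (q.2 v) :=
    fun y q => prod_nonneg fun _ _ => h0 _ _
  induction s generalizing y with
  | zero => simp [Dc]
  | succ s ih =>
    rcases hC : F.find? (fun C => decide (C.2 y)) with _ | C
    · simp only [Dc, hC, sum_empty]
      positivity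
    simp only [Dc, hC]
    refine (sum_biUnion_le' _ _ _ (hp y)).trans ?_
    have h1 : ∀ D ∈ C.1.powerset.erase ∅, ∑ q ∈ (Fintype.piFinset fun v =>
        if v ∈ D then univ else {y v}).biUnion fun y₁ =>
          ((Dc F s y₁).filter (Disjoint D ·.1)).image fun q => (D ∪ q.1, q.2),
          ∏ v ∈ q.1, wt (y v) (q.2 v) ≤ x ^ D.card * ((1 + x) ^ w - 1) ^ s := by
      intro D _
      refine (sum_biUnion_le' _ _ _ (hp y)).trans ?_
      refine (sum_le_sum (g := fun y₁ => (∏ v, if v ∈ D then wt (y v) (y₁ v) else 1) *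
        ((1 + x) ^ w - 1) ^ s) fun y₁ hy₁ => ?_).trans ?_
      · refine (sum_image_le_of_nonneg fun q _ => hp y q).trans ?_
        rw [Fintype.prod_ite_mem]
        refine le_trans ?_ (mul_le_mul_of_nonneg_left (ih y₁) (hp y (D, y₁)))
        rw [mul_sum]
        refine (sum_congr rfl fun q hq => ?_).trans_le
          (sum_le_sum_of_subset_of_nonneg (filter_subset _ _) fun q _ _ =>
            mul_nonneg (hp y (D, y₁)) (hp y₁ q))
        obtain ⟨h2, h3⟩ := mem_filter.1 hq
        rw [prod_union h3]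
        congr 1
        · exact prod_congr rfl fun v hv => by rw [dc_off _ _ _ h2 v (disjoint_left.1 h3 hv)]
        · refine prod_congr rfl fun v hv => ?_
          have := Fintype.mem_piFinset.1 hy₁ v
          rw [if_neg (disjoint_right.1 h3 hv), mem_singleton] at this
          rw [this]
      · rw [← sum_mul, ← prod_univ_sum (fun v => if v ∈ D then univ else {y v})
          fun v b => if v ∈ D then wt (y v) b else 1]
        refine mul_le_mul_of_nonneg_right ?_ (by positivity)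
        rw [← prod_const, ← Fintype.prod_ite_mem D fun _ => x]
        refine prod_le_prod (fun v _ => sum_nonneg fun b _ => ?_) fun v _ => ?_
        · split_ifs
          · exact h0 _ _
          · exact zero_le_one
        · split_ifs
          · exact hwt _
          · simp
    refine (sum_le_sum h1).trans ?_
    rw [← sum_mul, pow_succ']
    refine mul_le_mul_of_nonneg_right ?_ (by positivity)
    have h2 := sum_erase_eq_sub (f := fun D : Finset ι => x ^ D.card) (empty_mem_powerset C.1)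
    have h3 : ∑ D ∈ C.1.powerset, x ^ D.card = (1 + x) ^ C.1.card := by
      rw [← prod_const, prod_one_add]
      simp
    have h4 : (1 + x) ^ C.1.card ≤ (1 + x) ^ w :=
      pow_le_pow_right₀ (by linarith) (hF C (List.mem_of_find?_eq_some hC)).2.1
    rw [h2, h3]
    simp only [card_empty, pow_zero]
    linarith

theorem card_bd (hP : Cl P) {Ω : Type} {T : Ω → Finset ι} {y₀ : Ω → ι → α}
    {En Pa : Ω → ι → α → Prop} {F : List (Tm ι α)} {w : ℕ} (hF : Ok P w F) {wt : α → α → ℝ}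
    (h0 : ∀ a b, 0 ≤ wt a b) {x M : ℝ} (hx : 0 ≤ x) (hM : 0 ≤ M) (hwt : ∀ a, ∑ b, wt a b ≤ x)
    (hy : ∀ ω v, En ω v (y₀ ω v)) (Y : Finset (ι → α))
    (hY : ∀ ω y', (∀ v, En ω v (y' v)) → y' ∈ Y)
    (hc : ∀ (y' : ι → α) (D : Finset ι) (yf : ι → α) (Z : Finset Ω), (∀ ω ∈ Z,
      (∃ D', P D' ∧ D = D' ∩ T ω) ∧ (∀ v ∉ D, y' v = y₀ ω v) ∧
        ∀ v ∈ D, En ω v (y' v) ∧ Pa ω v (yf v)) → Z.card ≤ M * ∏ v ∈ D, wt (y' v) (yf v))
    (s : ℕ) (Z : Finset Ω) (hZ : ∀ ω ∈ Z, Bd (En ω) (Pa ω) F s (T ω) (y₀ ω)) :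
    (Z.card : ℝ) ≤ ((1 + x) ^ w - 1) ^ s * (Y.card * M) := by
  classical
  have hsub : Z ⊆ Y.biUnion fun y' => (Dc F s y').biUnion fun q =>
      {ω ∈ Z | (∃ D', P D' ∧ q.1 = D' ∩ T ω) ∧
        (∀ v ∉ q.1, y' v = y₀ ω v) ∧ ∀ v ∈ q.1, En ω v (y' v) ∧ Pa ω v (q.2 v)} := by
    intro ω hω
    obtain ⟨y', q, h1, h2, h3, h4⟩ := exists_dc hP hF s _ _ (fun v _ => hy ω v) (hZ ω hω)
    refine mem_biUnion.2 ⟨y', hY ω y' fun v => ?_, mem_biUnion.2 ⟨q, h1,
      mem_filter.2 ⟨hω, h2, h3, h4⟩⟩⟩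
    by_cases hv : v ∈ q.1
    · exact (h4 v hv).1
    · exact h3 v hv ▸ hy ω v
  refine (Nat.cast_le.2 ((card_le_card hsub).trans card_biUnion_le)).trans ?_
  rw [Nat.cast_sum]
  refine (sum_le_card_nsmul _ _ (((1 + x) ^ w - 1) ^ s * M) fun y' _ => ?_).trans
    (le_of_eq (by rw [nsmul_eq_mul]; ring))
  refine (Nat.cast_le.2 card_biUnion_le).trans ?_
  rw [Nat.cast_sum]
  refine (sum_le_sum fun q _ => hc y' q.1 q.2 _ fun ω hω => (mem_filter.1 hω).2).trans ?_
  rw [← mul_sum, mul_comm]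
  exact mul_le_mul_of_nonneg_right (sum_dc hF h0 hx hwt s y') hM

theorem card_fix {K Γ : Type} [Fintype K] [DecidableEq K] [Fintype Γ] [DecidableEq Γ]
    (S : Finset K) (φ : K → Γ) :
    #{g : K → Γ | ∀ k ∈ S, g k = φ k} * Fintype.card Γ ^ S.card =
      Fintype.card Γ ^ Fintype.card K := by
  have h : ({g : K → Γ | ∀ k ∈ S, g k = φ k} : Finset _) =
      Fintype.piFinset fun k => if k ∈ S then {φ k} else univ := by
    ext g
    simp only [mem_filter, mem_univ, true_and, Fintype.mem_piFinset]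
    refine forall_congr' fun k => ?_
    split_ifs with h <;> simp [h]
  rw [h, Fintype.card_piFinset]
  simp only [apply_ite card, card_univ, card_singleton]
  rw [prod_ite, prod_const, prod_const, one_pow, one_mul, filter_not, filter_mem_eq_inter,
    univ_inter, card_univ_sdiff, ← pow_add, Nat.sub_add_cancel (card_le_univ _)]

theorem card_om {K Γ ι Λ : Type} [Fintype K] [DecidableEq K] [Fintype Γ] [DecidableEq Γ]
    [Fintype ι] [DecidableEq ι] [Fintype Λ] [DecidableEq Λ] (Z : Finset ((K → Γ) × (ι → Λ)))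
    (ω₀ : (K → Γ) × (ι → Λ)) (S : Finset K) (D : Finset ι)
    (h : ∀ ω ∈ Z, (∀ k ∈ S, ω.1 k = ω₀.1 k) ∧ ∀ v ∉ D, ω.2 v = ω₀.2 v) :
    Z.card * Fintype.card Γ ^ S.card ≤
      Fintype.card Γ ^ Fintype.card K * Fintype.card Λ ^ D.card := by
  have hsub : Z ⊆ ({g | ∀ k ∈ S, g k = ω₀.1 k} : Finset _) ×ˢ
      ({l | ∀ v ∈ Dᶜ, l v = ω₀.2 v} : Finset _) := by
    intro ω hω
    simpa using h ω hω
  have h1 := card_le_card hsub
  rw [card_product] at h1
  have h3 := card_fix Dᶜ ω₀.2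
  have h4 : 0 < Fintype.card Λ ^ Dᶜ.card := by
    rcases isEmpty_or_nonempty ι with h | ⟨⟨v⟩⟩
    · simp [eq_empty_of_isEmpty]
    · exact Nat.pow_pos (Fintype.card_pos_iff.2 ⟨ω₀.2 v⟩)
  rw [← card_add_card_compl D, pow_add] at h3
  rw [Nat.eq_of_mul_eq_mul_right h4 h3] at h1
  rw [← card_fix S ω₀.1, mul_right_comm]
  exact Nat.mul_le_mul_right _ h1

theorem lam_le' {R w : ℕ} (hR : 0 < R) (h : 4 * w ≤ R) :
    (1 + (2 / R : ℝ)) ^ w - 1 ≤ 4 * w / R := by
  have hR' : (0 : ℝ) < R := by exact_mod_cast hR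
  have key : ∀ (a : ℝ) (n : ℕ), 0 ≤ a → (1 + a) ^ n * (1 - n * a) ≤ 1 := by
    intro a n ha
    induction n with
    | zero => simp
    | succ n ih =>
      have h1 : (1 + a) * (1 - (n + 1) * a) ≤ 1 - n * a := by
        have : 0 ≤ (n + 1) * a * a := by positivity
        nlinarith
      have h2 : 0 ≤ (1 + a) ^ n := by positivity
      push_cast
      calc _ = (1 + a) ^ n * ((1 + a) * (1 - (n + 1) * a)) := by ring
        _ ≤ (1 + a) ^ n * (1 - n * a) := mul_le_mul_of_nonneg_left h1 h2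
        _ ≤ 1 := ih
  have h1 := key (2 / R) w (by positivity)
  have h2 : (w : ℝ) * (2 / R) ≤ 1 / 2 := by
    have : (4 * w : ℝ) ≤ R := by exact_mod_cast h
    rw [show (w : ℝ) * (2 / R) = 2 * w / R by ring, div_le_iff₀ hR']
    linarith
  have h3 : 0 ≤ (1 + (2 / R : ℝ)) ^ w := by positivity
  have h4 : 0 ≤ (w : ℝ) * (2 / R) := by positivity
  rw [show (4 * w / R : ℝ) = 2 * (w * (2 / R)) by ring]
  nlinarith

end Pool.Agent.MP_a2d820_lc.h55

end MrgPart0

-- ======== part 1: formerly Pool.Agent.MP_a2d820_lc.h55.Tree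
section MrgPart1

/-!
Trees of negated conjunctions in which every true node has exactly one false child, and the
restrictions that thin the tree without lowering it.
-/

set_option autoImplicit false

namespace Pool.Agent.MP_a2d820_lc.h55

open Finset Pool.Agent.MP_a2d820_lc.h69

/-- The inner nodes of the tree of height `K`. -/
def Nd (K : ℕ) (Λ : Type) : Type := {p : List Λ // p.length < K}

variable {K : ℕ} {Λ β : Type}

instance [DecidableEq Λ] : DecidableEq (Nd K Λ) := inferInstanceAs (DecidableEq (Subtype _))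

noncomputable instance [Finite Λ] : Fintype (Nd K Λ) := (List.finite_length_lt Λ K).fintype

/-- The choice of one child at every inner node. -/
abbrev Asg (K : ℕ) (Λ : Type) : Type := Nd K Λ → Λ

/-- The child `a` of `p` is the chosen one. -/
def crit (c : Asg K Λ) (p : List Λ) (a : Λ) : Prop := ∃ h : p.length < K, c ⟨p, h⟩ = a

open Classical in
/-- The value of a node. -/
noncomputable def st (c : Asg K Λ) : List Λ → Bool
  | [] => false
  | a :: p => !(st c p && decide (crit c p a))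

/-- The parent. -/
def up (v : Nd K Λ) : Nd K Λ := ⟨v.1.tail, by have := v.2; simp; omega⟩

/-- The set avoids the root and contains the other ancestors of its members. -/
def Anc (D : Finset (Nd K Λ)) : Prop := ∀ v ∈ D, v.1 ≠ [] ∧ (v.1.tail ≠ [] → up v ∈ D)

theorem cl_anc [DecidableEq Λ] : Cl (Anc (K := K) (Λ := Λ)) :=
  ⟨by simp [Anc], fun D D' h h' v hv => (mem_union.1 hv).elim
    (fun hv => ⟨(h v hv).1, fun e => mem_union_left _ ((h v hv).2 e)⟩)
    fun hv => ⟨(h' v hv).1, fun e => mem_union_right _ ((h' v hv).2 e)⟩⟩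

theorem st_congr {c c' : Asg K Λ} {l : List Λ}
    (h : ∀ v : Nd K Λ, v.1 ≠ [] → v.1 <:+ l → v.1.length < l.length → c' v = c v) :
    st c' l = st c l := by
  induction l with
  | nil => rfl
  | cons a p ih =>
    rw [st, st, ih fun v h1 h2 h3 => h v h1 (h2.trans (List.suffix_cons _ _)) (by simp; omega)]
    by_cases hp : p = []
    · subst hp
      rfl
    · congr 2
      exact decide_eq_decide.2 (exists_congr fun hl => by
        rw [h ⟨p, hl⟩ hp (List.suffix_cons _ _) (by simp)])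

theorem cert_st [Finite Λ] (l : List Λ) : Cert Anc K fun c : Asg K Λ => st c l := by
  classical
  refine fun c => ⟨univ.filter fun v : Nd K Λ => v.1 ≠ [] ∧ v.1 <:+ l, fun v hv => ?_, ?_, fun c' hc =>
    st_congr fun v h1 h2 _ => hc v (by simp [h1, h2])⟩
  · simp only [mem_filter, mem_univ, true_and] at hv ⊢
    exact ⟨hv.1, fun e => ⟨e, (List.tail_suffix _).trans hv.2⟩⟩
  · refine (card_le_card_of_injOn (t := range K) (fun v => v.1.length)
      (fun v _ => by simpa using v.2) fun v hv v' hv' e => ?_).trans (by simp)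
    simp only [coe_filter, mem_univ, true_and, Set.mem_ofPred_eq] at hv hv'
    exact Subtype.ext ((List.suffix_of_suffix_length_le hv.2 hv'.2 e.le).eq_of_length e)

theorem card_paid [DecidableEq Λ] {D : Finset (Nd K Λ)} (hD : Anc D) (y y' : Asg K Λ) :
    D.card ≤ 2 ^ K * #{v ∈ D | ¬(v.1.tail ≠ [] ∧
      (v.1 = y (up v) :: v.1.tail ∨ v.1 = y' (up v) :: v.1.tail))} := by
  set Pd : Finset (Nd K Λ) := {v ∈ D | ¬(v.1.tail ≠ [] ∧
      (v.1 = y (up v) :: v.1.tail ∨ v.1 = y' (up v) :: v.1.tail))}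
  have key : ∀ d, #{v ∈ D | v.1.length ≤ d} + Pd.card ≤ 2 ^ d * Pd.card := by
    intro d
    induction d with
    | zero =>
      rw [card_eq_zero.2 (filter_eq_empty_iff.2 fun v hv h =>
        (hD v hv).1 (List.length_eq_zero_iff.1 (by omega)))]
      simp
    | succ d ih =>
      have h1 := card_le_card_sdiff_add_card (s := {v ∈ D | v.1.length ≤ d + 1}) (t := Pd)
      have h2 : #({v ∈ D | v.1.length ≤ d + 1} \ Pd) ≤
          #({v ∈ D | v.1.length ≤ d} ×ˢ (univ : Finset Bool)) := by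
        have h3 : ∀ v ∈ {v ∈ D | v.1.length ≤ d + 1} \ Pd, v ∈ D ∧ v.1.length ≤ d + 1 ∧
            v.1.tail ≠ [] ∧ (v.1 = y (up v) :: v.1.tail ∨ v.1 = y' (up v) :: v.1.tail) := by
          intro v hv
          simp only [Pd, mem_sdiff, mem_filter, not_and] at hv
          tauto
        refine card_le_card_of_injOn (fun v => (up v, decide (v.1 = y (up v) :: v.1.tail)))
          (fun v hv => ?_) fun v hv v' hv' e => ?_
        · obtain ⟨a1, a2, a3, -⟩ := h3 v hv
          simp only [coe_product, Set.mem_prod, mem_coe, mem_filter, mem_univ, and_true]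
          exact ⟨(hD v a1).2 a3, by simp [up]; omega⟩
        · obtain ⟨e1, e2⟩ := Prod.mk.inj e
          have e3 : v.1.tail = v'.1.tail := congrArg Subtype.val e1
          have e4 := decide_eq_decide.1 e2
          have a := (h3 v hv).2.2.2
          have a' := (h3 v' hv').2.2.2
          refine Subtype.ext ?_
          by_cases h : v.1 = y (up v) :: v.1.tail
          · rw [h, e4.1 h, e1, e3]
          · rw [a.resolve_left h, a'.resolve_left (mt e4.2 h), e1, e3]
      rw [card_product, card_univ, Fintype.card_bool] at h2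
      rw [pow_succ]
      nlinarith
  have := key K
  rw [filter_true_of_mem fun v _ => v.2.le] at this
  omega

variable {Γ Λ' : Type}

/-- The random data of a restriction. -/
abbrev Om (K : ℕ) (Γ Λ' : Type) : Type :=
  (Option (Nd K (Γ × Λ')) × Λ' → Γ) × (Nd K (Γ × Λ') → Λ')

/-- The row of the table that selects the children of a node. -/
def key (v : Nd K Λ) : Option (Nd K Λ) := if v.1.isEmpty then none else some v

theorem key_of_ne {v : Nd K Λ} (h : v.1 ≠ []) : key v = some v := by simp [key, h]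

theorem key_eq_some {v u : Nd K Λ} (h : key v = some u) : v.1 ≠ [] ∧ v = u := by
  by_cases h' : v.1 = []
  · simp [key, h'] at h
  · exact ⟨h', by simpa [key_of_ne h'] using h⟩

theorem key_inj {v u : Nd K Λ} (h : key v = key u) : v = u := by
  by_cases h' : u.1 = []
  · by_cases h'' : v.1 = []
    · exact Subtype.ext (h''.trans h'.symm)
    · exact (key_eq_some (h.symm.trans (key_of_ne h''))).2.symm
  · exact (key_eq_some (h.trans (key_of_ne h'))).2

/-- The nodes that survive. -/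
def Alv (g : Option (Nd K (Γ × Λ')) × Λ' → Γ) : List (Γ × Λ') → Prop
  | [] => True
  | a :: p => Alv g p ∧ ∃ h : p.length < K, g (key ⟨p, h⟩, a.2) = a.1

/-- The name of a surviving node in the thinner tree. -/
def dn (v : Nd K (Γ × Λ')) : Nd K Λ' := ⟨v.1.map Prod.snd, by simpa using v.2⟩

open Classical in
/-- The restriction. -/
noncomputable def rho (ω : Om K Γ Λ') (c : Asg K Λ') : Asg K (Γ × Λ') := fun v =>
  if Alv ω.1 v.1 then (ω.1 (some v, c (dn v)), c (dn v)) else (ω.1 (some v, ω.2 v), ω.2 v)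

theorem st_rho (ω : Om K Γ Λ') (l : List (Γ × Λ')) :
    (Alv ω.1 l → ∀ c, st (rho ω c) l = st c (l.map Prod.snd)) ∧
      (¬Alv ω.1 l → ∃ b, ∀ c, st (rho ω c) l = b) := by
  classical
  induction l with
  | nil => exact ⟨fun _ _ => rfl, fun h => absurd trivial h⟩
  | cons a p ih =>
    by_cases hp : p = []
    · subst hp
      exact ⟨fun _ _ => rfl, fun _ => ⟨true, fun _ => rfl⟩⟩
    have h1 : Alv ω.1 p → ∀ c, crit (rho ω c) p a ↔ Alv ω.1 (a :: p) ∧
        crit c (p.map Prod.snd) a.2 := by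
      intro h c
      constructor
      · rintro ⟨hl, e⟩
        rw [rho, if_pos h] at e
        subst e
        exact ⟨⟨h, hl, by rw [key_of_ne hp]⟩, _, rfl⟩
      · rintro ⟨⟨-, hl, e⟩, hl', e'⟩
        refine ⟨hl, ?_⟩
        rw [key_of_ne hp] at e
        rw [rho, if_pos h, show c (dn ⟨p, hl⟩) = a.2 from e', e]
    refine ⟨fun h c => ?_, fun h => ?_⟩
    · rw [List.map_cons, st, st, ih.1 h.1]
      simp only [h1 h.1, h, true_and]
    · by_cases h2 : Alv ω.1 p
      · exact ⟨true, fun c => by simp [st, h1 h2, h]⟩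
      · obtain ⟨b, hb⟩ := ih.2 h2
        refine ⟨!(b && decide (∃ hl, (ω.1 (some ⟨p, hl⟩, ω.2 ⟨p, hl⟩), ω.2 ⟨p, hl⟩) = a)),
          fun c => ?_⟩
        simp only [st, hb, crit, rho, h2, if_false]

theorem exists_alv (g : Option (Nd K (Γ × Λ')) × Λ' → Γ) (l : List Λ') (hl : l.length ≤ K) :
    ∃ p, Alv g p ∧ p.map Prod.snd = l := by
  induction l with
  | nil => exact ⟨[], trivial, rfl⟩
  | cons a l ih =>
    obtain ⟨p, h1, rfl⟩ := ih (by simp at hl; omega)
    have h : p.length < K := by simpa using hl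
    exact ⟨(g (key ⟨p, h⟩, a), a) :: p, ⟨h1, h, rfl⟩, rfl⟩

theorem Alv.tail {g : Option (Nd K (Γ × Λ')) × Λ' → Γ} {l : List (Γ × Λ')} (h : Alv g l) :
    Alv g l.tail := by
  cases l with
  | nil => exact h
  | cons a p => exact h.1

variable [Fintype Γ] [DecidableEq Γ] [Fintype Λ'] [DecidableEq Λ']

open Classical in
/-- The set of surviving inner nodes. -/
noncomputable def alv (g : Option (Nd K (Γ × Λ')) × Λ' → Γ) : Finset (Nd K (Γ × Λ')) :=
  univ.filter fun v => Alv g v.1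

omit [DecidableEq Γ] [DecidableEq Λ'] in
theorem mem_alv {g : Option (Nd K (Γ × Λ')) × Λ' → Γ} {v : Nd K (Γ × Λ')} :
    v ∈ alv g ↔ Alv g v.1 := by simp [alv]

theorem s_count [Nonempty Λ'] (hΓ : Fintype.card Λ' ^ (3 * 2 ^ K) ≤ Fintype.card Γ)
    (y' : Asg K (Γ × Λ')) (D : Finset (Nd K (Γ × Λ'))) (yf : Asg K (Γ × Λ'))
    (Z : Finset (Om K Γ Λ')) (hZ : ∀ ω ∈ Z, (∃ D', Anc D' ∧ D = D' ∩ alv ω.1) ∧
      (∀ v ∉ D, y' v = (ω.1 (some v, ω.2 v), ω.2 v)) ∧ ∀ v ∈ D,
        ω.1 (some v, (y' v).2) = (y' v).1 ∧ ω.1 (some v, (yf v).2) = (yf v).1) :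
    (Z.card : ℝ) ≤ (Fintype.card Γ ^ Fintype.card (Option (Nd K (Γ × Λ')) × Λ') /
      Fintype.card Γ ^ Fintype.card (Nd K (Γ × Λ'))) * ∏ v ∈ D,
        (if yf v = y' v then 1 else 1 / Fintype.card Γ : ℝ) / Fintype.card Λ' ^ 2 := by
  have hL : (0 : ℝ) < Fintype.card Λ' := by exact_mod_cast Fintype.card_pos
  have hG : (0 : ℝ) < Fintype.card Γ := by
    exact_mod_cast lt_of_lt_of_le (Nat.pow_pos Fintype.card_pos) hΓ
  rcases Z.eq_empty_or_nonempty with h | ⟨ω₀, h₀⟩
  · rw [h, card_empty, Nat.cast_zero]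
    refine mul_nonneg (by positivity) (prod_nonneg fun v _ => ?_)
    split_ifs <;> positivity
  have hz : ∀ ω ∈ Z, (∀ v ∈ D, Alv ω.1 v.1) ∧ (∀ v, ω.1 (some v, (y' v).2) = (y' v).1) ∧
      (∀ v ∈ D, ω.1 (some v, (yf v).2) = (yf v).1) ∧ ∀ v ∉ D, ω.2 v = (y' v).2 := by
    intro ω hω
    obtain ⟨⟨D', -, a1⟩, a2, a3⟩ := hZ ω hω
    refine ⟨fun v hv => ?_, fun v => ?_, fun v hv => (a3 v hv).2, fun v hv => by rw [a2 v hv]⟩
    · rw [a1] at hv
      exact mem_alv.1 (mem_inter.1 hv).2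
    · by_cases hv : v ∈ D
      · exact (a3 v hv).1
      · rw [a2 v hv]
  have hD : Anc D := by
    obtain ⟨⟨D', a0, a1⟩, -⟩ := hZ _ h₀
    intro v hv
    have h1 := (hz _ h₀).1 v hv
    rw [a1] at hv ⊢
    exact ⟨(a0 v (mem_inter.1 hv).1).1, fun e => mem_inter.2 ⟨(a0 v (mem_inter.1 hv).1).2 e,
      mem_alv.2 h1.tail⟩⟩
  set Pd : Finset (Nd K (Γ × Λ')) := {v ∈ D | ¬(v.1.tail ≠ [] ∧
      (v.1 = y' (up v) :: v.1.tail ∨ v.1 = yf (up v) :: v.1.tail))}
  have hP : D.card ≤ 2 ^ K * Pd.card := card_paid hD y' yf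
  set E : Finset (Nd K (Γ × Λ')) := {v ∈ D | ¬yf v = y' v}
  let hd : Nd K (Γ × Λ') → Γ × Λ' := fun v => v.1.headD (y' v)
  have hhd : ∀ v ∈ D, v.1 = hd v :: v.1.tail ∧ ∀ ω ∈ Z, ω.1 (key (up v), (hd v).2) = (hd v).1 := by
    rintro ⟨_ | ⟨a, p⟩, hl⟩ hv
    · exact absurd rfl (hD _ hv).1
    · exact ⟨rfl, fun ω hω => ((hz ω hω).1 _ hv).2.2⟩
  obtain ⟨-, z1, z2, -⟩ := hz _ h₀
  let S₁ := univ.image fun v : Nd K (Γ × Λ') => (some v, (y' v).2)
  let S₂ := E.image fun v => (some v, (yf v).2)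
  let S₃ := Pd.image fun v => (key (up v), (hd v).2)
  have hS : (S₁ ∪ S₂ ∪ S₃).card = Fintype.card (Nd K (Γ × Λ')) + E.card + Pd.card := by
    rw [card_union_of_disjoint, card_union_of_disjoint, card_image_of_injOn, card_image_of_injOn,
      card_image_of_injOn, card_univ]
    · intro v hv v' hv' e
      obtain ⟨e1, e2⟩ := Prod.mk.inj e
      obtain ⟨a1, a2⟩ := hhd v (mem_filter.1 hv).1
      obtain ⟨b1, b2⟩ := hhd v' (mem_filter.1 hv').1
      have e3 : v.1.tail = v'.1.tail := congrArg Subtype.val (key_inj e1)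
      refine Subtype.ext ?_
      rw [a1, b1, e3, Prod.ext ((a2 _ h₀).symm.trans ((congrArg _ e).trans (b2 _ h₀))) e2]
    · exact fun v _ v' _ e => Option.some.inj (Prod.mk.inj e).1
    · exact fun v _ v' _ e => Option.some.inj (Prod.mk.inj e).1
    · refine disjoint_left.2 fun k h1 h2 => ?_
      obtain ⟨u, -, rfl⟩ := mem_image.1 h1
      obtain ⟨v, hv, e⟩ := mem_image.1 h2
      obtain ⟨e1, e2⟩ := Prod.mk.inj e
      obtain rfl := Option.some.inj e1
      exact (mem_filter.1 hv).2 (Prod.ext ((z2 v (mem_filter.1 hv).1).symm.trans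
        ((congrArg _ e).trans (z1 v))) e2)
    · refine disjoint_left.2 fun k h1 h2 => ?_
      obtain ⟨v, hv, rfl⟩ := mem_image.1 h2
      obtain ⟨a1, a2⟩ := hhd v (mem_filter.1 hv).1
      refine (mem_filter.1 hv).2 ?_
      rcases mem_union.1 h1 with h1 | h1
      · obtain ⟨u, -, e⟩ := mem_image.1 h1
        obtain ⟨e1, e2⟩ := Prod.mk.inj e
        obtain ⟨e3, rfl⟩ := key_eq_some e1.symm
        refine ⟨e3, Or.inl (a1.trans ?_)⟩
        rw [Prod.ext ((z1 _).symm.trans ((congrArg _ e).trans (a2 _ h₀))) e2]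
      · obtain ⟨u, hu, e⟩ := mem_image.1 h1
        obtain ⟨e1, e2⟩ := Prod.mk.inj e
        obtain ⟨e3, rfl⟩ := key_eq_some e1.symm
        refine ⟨e3, Or.inr (a1.trans ?_)⟩
        rw [Prod.ext ((z2 _ (mem_filter.1 hu).1).symm.trans ((congrArg _ e).trans (a2 _ h₀))) e2]
  have hsub : Z ⊆ ({g | ∀ k ∈ S₁ ∪ S₂ ∪ S₃, g k = ω₀.1 k} : Finset _) ×ˢ
      ({l | ∀ v ∈ Dᶜ, l v = (y' v).2} : Finset _) := by
    intro ω hω
    obtain ⟨-, a1, a2, a3⟩ := hz _ hω
    simp only [mem_product, mem_filter, mem_univ, true_and, mem_compl]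
    refine ⟨fun k hk => ?_, a3⟩
    rcases mem_union.1 hk with hk | hk
    · rcases mem_union.1 hk with hk | hk
      · obtain ⟨v, -, rfl⟩ := mem_image.1 hk
        rw [a1, z1]
      · obtain ⟨v, hv, rfl⟩ := mem_image.1 hk
        rw [a2 v (mem_filter.1 hv).1, z2 v (mem_filter.1 hv).1]
    · obtain ⟨v, hv, rfl⟩ := mem_image.1 hk
      rw [(hhd v (mem_filter.1 hv).1).2 _ hω, (hhd v (mem_filter.1 hv).1).2 _ h₀]
  have h1 := card_le_card hsub
  rw [card_product] at h1
  have h2 := card_fix (S₁ ∪ S₂ ∪ S₃) ω₀.1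
  have h3 := card_fix Dᶜ fun v => (y' v).2
  rw [← card_add_card_compl D, pow_add] at h3
  rw [Nat.eq_of_mul_eq_mul_right (Nat.pow_pos Fintype.card_pos) h3] at h1
  have h4 : Fintype.card Λ' ^ D.card * (Fintype.card Λ' ^ 2) ^ D.card ≤
      Fintype.card Γ ^ Pd.card := by
    refine le_trans ?_ (Nat.pow_le_pow_left hΓ _)
    rw [← pow_mul, ← pow_mul, ← pow_add]
    exact Nat.pow_le_pow_right Fintype.card_pos (by rw [mul_assoc]; omega)
  rw [prod_div_distrib, prod_ite, prod_const, prod_const, prod_const, one_pow, one_mul, one_div,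
    inv_pow, div_mul_div_comm, le_div_iff₀ (by positivity), ← div_eq_mul_inv,
    le_div_iff₀ (by positivity)]
  norm_cast
  rw [← h2, hS, pow_add, pow_add]
  calc _ ≤ _ * Fintype.card Λ' ^ D.card * _ * _ := by gcongr
    _ = _ * (Fintype.card Γ ^ Fintype.card (Nd K (Γ × Λ')) * Fintype.card Γ ^ E.card *
        (Fintype.card Λ' ^ D.card * (Fintype.card Λ' ^ 2) ^ D.card)) := by ring
    _ ≤ _ := by gcongr

theorem anc_dn (g : Option (Nd K (Γ × Λ')) × Λ' → Γ) {D : Finset (Nd K (Γ × Λ'))} (hD : Anc D) :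
    Anc ((D ∩ alv g).image dn) := by
  intro v hv
  obtain ⟨u, hu, rfl⟩ := mem_image.1 hv
  obtain ⟨h1, h2⟩ := mem_inter.1 hu
  refine ⟨by simpa [dn] using (hD u h1).1, fun e => mem_image.2 ⟨up u, mem_inter.2
    ⟨(hD u h1).2 fun e' => e ?_, mem_alv.2 (mem_alv.1 h2).tail⟩, Subtype.ext ?_⟩⟩
  · simp only [dn, ← List.map_tail, e', List.map_nil]
  · simp only [dn, up, List.map_tail]

theorem s_step [Nonempty Λ'] (hΓ : Fintype.card Λ' ^ (3 * 2 ^ K) ≤ Fintype.card Γ) {d : ℕ} {b : β}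
    {f : Asg K (Γ × Λ') → β} (hf : Or1 Anc d b f) (s : ℕ) (Z : Finset (Om K Γ Λ'))
    (hZ : ∀ ω ∈ Z, ¬Cert Anc (s * d) (f ∘ rho ω)) :
    (Z.card : ℝ) ≤ ((1 + 2 / Fintype.card Λ') ^ d - 1) ^ (s + 1) * Fintype.card (Om K Γ Λ') := by
  classical
  choose! D h1 h2 h3 using hf
  let F : List (Tm (Nd K (Γ × Λ')) (Γ × Λ')) :=
    (univ.filter (f · ≠ b)).toList.map fun c => (D c, fun y => ∀ v ∈ D c, y v = c v)
  have hF : ∀ C, C ∈ F ↔ ∃ c, f c ≠ b ∧ (D c, fun y => ∀ v ∈ D c, y v = c v) = C := by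
    simp [F]
  have hO : Ok Anc d F := by
    intro C hC
    obtain ⟨c, hc, rfl⟩ := (hF C).1 hC
    exact ⟨h1 c hc, h2 c hc, fun y y' e h v hv => (e v hv).trans (h v hv)⟩
  have hL : (1 : ℝ) ≤ Fintype.card Λ' := by exact_mod_cast Fintype.card_pos
  have hG : (0 : ℝ) < Fintype.card Γ := by
    exact_mod_cast lt_of_lt_of_le (Nat.pow_pos Fintype.card_pos) hΓ
  refine (card_bd cl_anc
    (T := fun ω : Om K Γ Λ' => alv ω.1)
    (y₀ := fun ω v => (ω.1 (some v, ω.2 v), ω.2 v))
    (En := fun ω v a => ω.1 (some v, a.2) = a.1) (Pa := fun ω v a => ω.1 (some v, a.2) = a.1) hO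
    (wt := fun a a' => (if a' = a then 1 else 1 / Fintype.card Γ : ℝ) / Fintype.card Λ' ^ 2)
    (x := 2 / Fintype.card Λ') (fun a a' => by split_ifs <;> positivity) (by positivity)
    ?_ (fun a => ?_) (fun _ _ => rfl) univ (fun _ _ _ => mem_univ _) (s_count hΓ) (s + 1) Z
    fun ω hω => by_contra fun hb => hZ ω hω fun c => ?_).trans (le_of_eq ?_)
  rotate_left 2
  · obtain ⟨D', a1, a2, a3⟩ := not_bd cl_anc hO (fun C _ T y π hπ h => ⟨π, fun v _ => hπ v, h⟩)
      _ _ _ hb (fun v => (ω.1 (some v, c (dn v)), c (dn v))) fun _ => rfl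
    have e : ∀ c', rho ω c' = (alv ω.1).piecewise
        (fun v => (ω.1 (some v, c' (dn v)), c' (dn v)))
        fun v => (ω.1 (some v, ω.2 v), ω.2 v) := fun c' => funext fun v => by
      simp [rho, Finset.piecewise, mem_alv]
    refine ⟨_, anc_dn ω.1 a1, ?_, fun c' hc => ?_⟩
    · have := (card_image_le (f := dn)).trans
        (card_le_card (inter_subset_left (s₁ := D') (s₂ := alv ω.1)))
      rw [Nat.succ_mul] at a2
      omega
    · have h4 : ∀ v ∈ D' ∩ alv ω.1, (ω.1 (some v, c' (dn v)), c' (dn v)) =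
          (ω.1 (some v, c (dn v)), c (dn v)) := fun v hv => by rw [hc _ (mem_image_of_mem _ hv)]
      simp only [Function.comp, e]
      rcases a3 with ⟨C, hC, a3⟩ | a3
      · obtain ⟨c₀, hc₀, rfl⟩ := (hF C).1 hC
        rw [h3 c₀ hc₀ _ (a3 _ h4), h3 c₀ hc₀ _ (a3 _ fun _ _ => rfl)]
      · have h5 : ∀ z : Asg K (Γ × Λ'), (∀ v, ω.1 (some v, (z v).2) = (z v).1) →
            (∀ v ∈ D' ∩ alv ω.1, z v = (ω.1 (some v, c (dn v)), c (dn v))) →
            f ((alv ω.1).piecewise z fun v => (ω.1 (some v, ω.2 v), ω.2 v)) = b :=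
          fun z hz hz' => by_contra fun hne =>
            a3 _ ((hF _).2 ⟨_, hne, rfl⟩) z hz hz' fun _ _ => rfl
        rw [h5 _ (fun _ => rfl) h4, h5 _ (fun _ => rfl) fun _ _ => rfl]
  rotate_left
  · positivity
  · rw [← sum_div, div_le_div_iff₀ (by positivity) (by positivity)]
    have h4 : ∑ a' : Γ × Λ', (if a' = a then 1 else 1 / Fintype.card Γ : ℝ) ≤
        1 + Fintype.card Λ' := by
      refine (sum_le_sum (g := fun a' => (if a' = a then 1 else 0) + 1 / (Fintype.card Γ : ℝ))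
        fun a' _ => ?_).trans (le_of_eq ?_)
      · split_ifs
        · exact le_add_of_nonneg_right (by positivity)
        · simp
      · rw [sum_add_distrib, sum_ite_eq', sum_const, card_univ, Fintype.card_prod]
        simp
        field_simp
    nlinarith
  · rw [card_univ, Fintype.card_prod (_ → Γ), Fintype.card_fun, Fintype.card_fun,
      Fintype.card_fun, Fintype.card_prod Γ]
    push_cast
    rw [mul_pow]
    field_simp

end Pool.Agent.MP_a2d820_lc.h55

end MrgPart1

-- ======== part 2: formerly Pool.Agent.MP_a2d820_lc.h55.Peel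
section MrgPart2

/-!
Removing one level of the tree for every layer of a circuit.
-/

set_option autoImplicit false

namespace Pool.Agent.MP_a2d820_lc.h55

open Finset Pool.Agent.MP_a2d820_lc.h69

variable {K d : ℕ} {Γ Λ' β : Type}

/-- No condition on the certificates. -/
def Tr {ι : Type} (_ : Finset ι) : Prop := True

theorem cl_tr {ι : Type} [DecidableEq ι] : Cl (Tr (ι := ι)) := ⟨trivial, fun _ _ _ _ => trivial⟩

/-- The nodes at depth `d + 1`. -/
abbrev Bl (d : ℕ) (Λ : Type) : Type := List.Vector Λ d × Λ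

/-- The random data of one step. -/
abbrev Oh (d : ℕ) (Γ Λ' : Type) : Type :=
  (List.Vector (Γ × Λ') d × Λ' → Γ) × (Bl d (Γ × Λ') → Λ')

variable [DecidableEq Γ] [DecidableEq Λ']

/-- The values at depth `d + 2` when every node at depth `d + 1` names its false child, if any. -/
def bl (ch : List (Γ × Λ') → Λ' → Γ × Λ') (y : Bl d (Γ × Λ') → Option Λ') : List (Γ × Λ') → Bool
  | b :: a :: q => if h : q.length = d then !decide ((y (⟨q, h⟩, a)).map (ch (a :: q)) = some b)
      else true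
  | _ => true

theorem bl_congr {ch : List (Γ × Λ') → Λ' → Γ × Λ'} {y y' : Bl d (Γ × Λ') → Option Λ'}
    {v : List (Γ × Λ')} (h : ∀ (p : Bl d (Γ × Λ')) b, v = b :: p.2 :: p.1.1 →
      ((y' p).map (ch (p.2 :: p.1.1)) = some b ↔ (y p).map (ch (p.2 :: p.1.1)) = some b)) :
    bl ch y' v = bl ch y v := by
  rcases v with _ | ⟨b, _ | ⟨a, q⟩⟩
  · rfl
  · rfl
  · simp only [bl]
    split_ifs with hq
    · rw [decide_eq_decide.2 (h (⟨q, hq⟩, a) b rfl)]
    · rfl

variable [Fintype Γ] [Fintype Λ']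

/-- The surviving nodes at depth `d + 1`. -/
def hal (g : List.Vector (Γ × Λ') d × Λ' → Γ) : Finset (Bl d (Γ × Λ')) :=
  univ.filter fun p => g (p.1, p.2.2) = p.2.1

/-- The projection from depth `d + 1` to depth `d + 2`. -/
def hp (ch : List (Γ × Λ') → Λ' → Γ × Λ') (ω : Oh d Γ Λ') (z : List (Γ × Λ') → Bool) :
    List (Γ × Λ') → Bool :=
  bl ch ((hal ω.1).piecewise (fun p => bif z (p.2 :: p.1.1) then some (ω.2 p) else none)
    fun p => some (ω.2 p))

theorem h_count [Nonempty Γ] (y' : Bl d (Γ × Λ') → Option Λ')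
    (D : Finset (Bl d (Γ × Λ'))) (Z : Finset (Oh d Γ Λ'))
    (hZ : ∀ ω ∈ Z, D ⊆ hal ω.1 ∧ ∀ v ∉ D, y' v = some (ω.2 v)) :
    (Z.card : ℝ) ≤ Fintype.card Γ ^ Fintype.card (List.Vector (Γ × Λ') d × Λ') *
      ∏ _v ∈ D, (Fintype.card Λ' / Fintype.card Γ : ℝ) := by
  have hG : (0 : ℝ) < Fintype.card Γ := by exact_mod_cast Fintype.card_pos
  rcases Z.eq_empty_or_nonempty with h | ⟨ω₀, h₀⟩
  · rw [h, card_empty, Nat.cast_zero]
    positivity
  have ha : ∀ ω ∈ Z, ∀ p ∈ D, ω.1 (p.1, p.2.2) = p.2.1 := fun ω hω p hp =>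
    (mem_filter.1 ((hZ ω hω).1 hp)).2
  have h2 := card_om Z ω₀ (D.image fun p => (p.1, p.2.2)) D fun ω hω => ⟨fun k hk => by
    obtain ⟨p, hp, rfl⟩ := mem_image.1 hk
    rw [ha ω hω p hp, ha _ h₀ p hp], fun v hv => Option.some.inj
      (((hZ ω hω).2 v hv).symm.trans ((hZ _ h₀).2 v hv))⟩
  rw [card_image_of_injOn fun p hp p' hp' e => Prod.ext (Prod.mk.inj e).1 (Prod.ext
    ((ha _ h₀ p hp).symm.trans ((congrArg _ e).trans (ha _ h₀ p' hp'))) (Prod.mk.inj e).2)] at h2
  rw [prod_const, div_pow, ← mul_div_assoc, le_div_iff₀ (by positivity)]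
  exact_mod_cast h2

omit [Fintype Γ] in
theorem exists_free {ch : List (Γ × Λ') → Λ' → Γ × Λ'} (hch : ∀ p, Function.Injective (ch p))
    {D : Finset (List (Γ × Λ'))} (hD : D.card < Fintype.card Λ') (p : List (Γ × Λ')) :
    ∃ μ, ch p μ :: p ∉ D := by
  obtain ⟨_, h1, h2⟩ := exists_mem_notMem_of_card_lt_card (s := D)
    (t := univ.image fun μ => ch p μ :: p) (by
      rwa [card_image_of_injective _ fun a b e => hch p (List.cons.inj e).1, card_univ])
  obtain ⟨μ, -, rfl⟩ := mem_image.1 h1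
  exact ⟨μ, h2⟩

theorem h_step [Nonempty Λ'] (hΓ : Fintype.card Λ' ^ 3 ≤ Fintype.card Γ)
    {ch : List (Γ × Λ') → Λ' → Γ × Λ'} (hch : ∀ p, Function.Injective (ch p)) {W : ℕ}
    (hW : W < Fintype.card Λ') {f : (List (Γ × Λ') → Bool) → Bool} (hf : Or1 Tr W false f) (s : ℕ)
    (Z : Finset (Oh d Γ Λ')) (hZ : ∀ ω ∈ Z, ¬Cert Tr (s * W) (f ∘ hp ch ω)) :
    (Z.card : ℝ) ≤ ((1 + 2 / Fintype.card Λ') ^ W - 1) ^ (s + 1) * Fintype.card (Oh d Γ Λ') := by
  classical
  choose! D h1 h2 h3 using hf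
  let tm : (Bl d (Γ × Λ') → Option Λ') → Tm (Bl d (Γ × Λ')) (Option Λ') := fun y =>
    (univ.filter fun p => ∃ b, b :: p.2 :: p.1.1 ∈ D (bl ch y),
      fun y' => ∀ v ∈ D (bl ch y), bl ch y' v = bl ch y v)
  let F := (univ.filter fun y => f (bl ch y) ≠ false).toList.map tm
  have hF : ∀ C, C ∈ F ↔ ∃ y, f (bl ch y) ≠ false ∧ tm y = C := by simp [F]
  have hi : Function.Injective fun p : Bl d (Γ × Λ') => p.2 :: p.1.1 := fun p p' e =>
    Prod.ext (Subtype.ext (List.cons.inj e).2) (List.cons.inj e).1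
  have hO : Ok Tr W F := by
    intro C hC
    obtain ⟨y, hy, rfl⟩ := (hF C).1 hC
    refine ⟨trivial, ?_, fun y₁ y₂ e h v hv => (bl_congr fun p b e' => ?_).trans (h v hv)⟩
    · refine le_trans (card_le_card_of_injOn (t := (D (bl ch y)).image List.tail) _
        (fun p hp => ?_) hi.injOn) (card_image_le.trans (h2 _ hy))
      obtain ⟨b, hb⟩ := (mem_filter.1 hp).2
      exact mem_image.2 ⟨_, hb, rfl⟩
    · rw [e p (mem_filter.2 ⟨mem_univ _, b, e' ▸ hv⟩)]
  have hL : (1 : ℝ) ≤ Fintype.card Λ' := by exact_mod_cast Fintype.card_pos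
  have hG' := lt_of_lt_of_le (Nat.pow_pos Fintype.card_pos) hΓ
  have hG : (0 : ℝ) < Fintype.card Γ := by exact_mod_cast hG'
  have := Fintype.card_pos_iff.1 hG'
  refine (card_bd cl_tr (T := fun ω : Oh d Γ Λ' => hal ω.1) (y₀ := fun ω v => some (ω.2 v))
    (En := fun _ _ a => a ≠ none) (Pa := fun ω v a => a = none ∨ a = some (ω.2 v)) hO
    (wt := fun _ _ => (Fintype.card Λ' / Fintype.card Γ : ℝ)) (x := 2 / Fintype.card Λ')
    (fun _ _ => by positivity) (by positivity) ?_ (fun a => ?_) (by simp)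
    (Fintype.piFinset fun _ => univ.image some) (fun _ y' h => Fintype.mem_piFinset.2 fun v => ?_)
    (fun y' D' yf Z' h => h_count y' D' Z' fun ω hω => ⟨?_, (h ω hω).2.1⟩) (s + 1) Z
    fun ω hω => by_contra fun hb => hZ ω hω fun z => ?_).trans (le_of_eq ?_)
  · positivity
  · rw [sum_const, card_univ, Fintype.card_option, nsmul_eq_mul, ← mul_div_assoc,
      div_le_div_iff₀ hG (by positivity)]
    have h4 : (Fintype.card Λ' : ℝ) ^ 3 ≤ Fintype.card Γ := by exact_mod_cast hΓ
    push_cast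
    nlinarith [mul_le_mul_of_nonneg_left hL (by positivity : (0 : ℝ) ≤ Fintype.card Λ' ^ 2)]
  · obtain ⟨a, ha⟩ := Option.ne_none_iff_exists.1 (h v)
    exact mem_image.2 ⟨a, mem_univ _, ha⟩
  · obtain ⟨D'', -, rfl⟩ := (h ω hω).1
    exact inter_subset_right
  · have hz : ∀ (z : List (Γ × Λ') → Bool) (p : Bl d (Γ × Λ')),
        (bif z (p.2 :: p.1.1) then some (ω.2 p) else none) = none ∨
          (bif z (p.2 :: p.1.1) then some (ω.2 p) else none) = some (ω.2 p) := fun z p => by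
      cases z (p.2 :: p.1.1) <;> simp
    have h5 := not_bd cl_tr hO (fun C hC T y π _ h => ?_) _ _ _ hb _ (hz z)
    · obtain ⟨D', -, a2, a3⟩ := h5
      refine ⟨D'.image fun p => p.2 :: p.1.1, trivial, ?_, fun z' hz' => ?_⟩
      · have := card_image_le (s := D') (f := fun p => p.2 :: p.1.1)
        rw [Nat.succ_mul] at a2
        omega
      · have h4 : ∀ p ∈ D' ∩ hal ω.1, (bif z' (p.2 :: p.1.1) then some (ω.2 p) else none) =
            bif z (p.2 :: p.1.1) then some (ω.2 p) else none := fun p hp => by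
          rw [hz' _ (mem_image_of_mem _ (mem_inter.1 hp).1)]
        simp only [Function.comp, hp]
        rcases a3 with ⟨C, hC, a3⟩ | a3
        · obtain ⟨y, hy, rfl⟩ := (hF C).1 hC
          rw [h3 _ hy _ (a3 _ h4), h3 _ hy _ (a3 _ fun _ _ => rfl)]
        · rw [by_contra fun hne => a3 _ ((hF _).2 ⟨_, hne, rfl⟩) _ (hz z') h4 fun _ _ => rfl,
            by_contra fun hne => a3 _ ((hF _).2 ⟨_, hne, rfl⟩) _ (hz z) (fun _ _ => rfl)
              fun _ _ => rfl]
    · obtain ⟨y₀, hy, rfl⟩ := (hF C).1 hC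
      choose μ hμ using exists_free hch ((h2 _ hy).trans_lt hW)
      refine ⟨fun p => some ((π p).getD (μ (p.2 :: p.1.1))), by simp, fun v hv =>
        (bl_congr fun p b e => ?_).trans (h v hv)⟩
      by_cases hT : p ∈ T
      · rw [piecewise_eq_of_mem _ _ _ hT, piecewise_eq_of_mem _ _ _ hT]
        rcases π p with _ | m
        · simpa using fun e' => hμ (p.2 :: p.1.1) (by rw [e', ← e]; exact hv)
        · rfl
      · rw [piecewise_eq_of_notMem _ _ _ hT, piecewise_eq_of_notMem _ _ _ hT]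
  · rw [Fintype.card_piFinset, Fintype.card_prod (_ → Γ), Fintype.card_fun, Fintype.card_fun]
    simp only [card_image_of_injective _ (Option.some_injective _), card_univ, prod_const]
    push_cast
    ring

/-- The oracles `τ c` are described by the values at depth `d + 1`. -/
def HS (τ : Asg K (Γ × Λ') → Lang) (d : ℕ) (ch : List (Γ × Λ') → Λ' → Γ × Λ')
    (κ : (List (Γ × Λ') → Bool) → Lang) : Prop :=
  (∀ p, Function.Injective (ch p)) ∧ (∀ w, Cert Tr 1 fun z => κ z w) ∧
    ∀ c : Asg K (Γ × Λ'), (∀ p : Nd K (Γ × Λ'), p.1.length = d → ∃ μ, c p = ch p.1 μ) →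
      ∃ c', (∀ p : Nd K (Γ × Λ'), p.1.length = 1 → c' p = c p) ∧
        ∀ z, (∀ v, v.length = d + 1 → z v = st c v) → κ z = τ c'

theorem HS.peel [Inhabited Γ] [Inhabited Λ'] {τ : Asg K (Γ × Λ') → Lang}
    {ch : List (Γ × Λ') → Λ' → Γ × Λ'} {κ : (List (Γ × Λ') → Bool) → Lang}
    (h : HS τ (d + 1) ch κ) (hd : 1 ≤ d) (hK : d + 1 < K) (ω : Oh d Γ Λ') :
    ∃ ch', HS τ d ch' (κ ∘ hp ch ω) := by
  obtain ⟨h1, h2, h3⟩ := h
  refine ⟨fun q μ => (if h : q.length = d then ω.1 (⟨q, h⟩, μ) else default, μ),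
    fun p a b e => (Prod.mk.inj e).2, fun w z => ?_, fun c hc => ?_⟩
  · obtain ⟨D, -, a2, a3⟩ := h2 w (hp ch ω z)
    refine ⟨D.image List.tail, trivial, card_image_le.trans a2, fun z' hz => a3 _ fun v hv =>
      bl_congr fun p b e => ?_⟩
    have : z' (p.2 :: p.1.1) = z (p.2 :: p.1.1) := hz _ (mem_image.2 ⟨v, hv, congrArg List.tail e⟩)
    simp only [Finset.piecewise, this]
  · let cc : List (Γ × Λ') → Λ' := fun p =>
      if h : p.tail.length = d then ω.2 (⟨p.tail, h⟩, p.headI) else default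
    obtain ⟨c', a1, a2⟩ := h3 (fun p => if p.1.length = d + 1 then ch p.1 (cc p.1) else c p)
      fun p hp => ⟨_, if_pos hp⟩
    refine ⟨c', fun p hp => (a1 p hp).trans (if_neg (by omega)), fun z hz => a2 _ ?_⟩
    rintro (_ | ⟨b, _ | ⟨a, q⟩⟩) hv
    · simp at hv
    · simp at hv
    have hq : q.length = d := by simpa using hv
    have hl : (a :: q).length < K := by simp; omega
    rw [st, st_congr (c := c) fun v _ _ hv => if_neg (by simp at hv; omega)]
    have e : crit (fun p : Nd K (Γ × Λ') => if p.1.length = d + 1 then ch p.1 (cc p.1) else c p)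
        (a :: q) b ↔ ch (a :: q) (ω.2 (⟨q, hq⟩, a)) = b := by
      simp [crit, cc, hq, hK]
    simp only [hp, bl, hq, dite_true, e]
    by_cases hT : ((⟨q, hq⟩, a) : Bl d (Γ × Λ')) ∈ hal ω.1
    · rw [piecewise_eq_of_mem _ _ _ hT, ← hz _ (by simp [hq])]
      cases z (a :: q) <;> simp
    · rw [piecewise_eq_of_notMem _ _ _ hT]
      have : ¬crit c q a := fun ⟨h, e⟩ => hT (by
        obtain ⟨μ, hμ⟩ := hc ⟨q, h⟩ hq
        rw [hμ] at e
        subst e
        simp [hal, hq])
      simp [st, this]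

theorem exists_good {Ω ι : Type} [Fintype Ω] [Nonempty Ω] (F : Finset ι) {B : ι → Ω → Prop} {s : ℕ}
    (hF : F.card < 2 ^ s) (h : ∀ f ∈ F, ∀ Z : Finset Ω, (∀ ω ∈ Z, B f ω) →
      (Z.card : ℝ) ≤ (1 / 2) ^ s * Fintype.card Ω) : ∃ ω, ∀ f ∈ F, ¬B f ω := by
  classical
  by_contra hc
  push Not at hc
  have hsub : (univ : Finset Ω) ⊆ F.biUnion fun f => {ω | B f ω} := by
    intro ω _
    obtain ⟨f, hf, hb⟩ := hc ω
    exact mem_biUnion.2 ⟨f, hf, mem_filter.2 ⟨mem_univ _, hb⟩⟩
  have h8 := sum_le_card_nsmul _ _ _ fun f hf => h f hf {ω | B f ω} fun ω hω => (mem_filter.1 hω).2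
  have h9 : (Fintype.card Ω : ℝ) ≤ ∑ f ∈ F, (#{ω | B f ω} : ℝ) := by
    exact_mod_cast (card_le_card hsub).trans card_biUnion_le
  have h10 : (0 : ℝ) < Fintype.card Ω := by exact_mod_cast Fintype.card_pos
  have h11 : (F.card : ℝ) < 2 ^ s := by exact_mod_cast hF
  have h12 : (F.card : ℝ) * (1 / 2) ^ s < 1 := by
    rw [one_div, inv_pow, ← div_eq_mul_inv, div_lt_one (by positivity)]
    exact h11
  rw [nsmul_eq_mul, ← mul_assoc] at h8
  nlinarith

theorem half_le {R w : ℕ} (hR : 0 < R) (h : 8 * w ≤ R) (s : ℕ) :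
    ((1 + (2 / R : ℝ)) ^ w - 1) ^ (s + 1) ≤ (1 / 2) ^ s := by
  have h1 : (4 * w / R : ℝ) ≤ 1 / 2 := by
    have : (8 * w : ℝ) ≤ R := by exact_mod_cast h
    rw [div_le_iff₀ (by exact_mod_cast hR)]
    linarith
  refine (pow_le_pow_left₀ (sub_nonneg.2 (one_le_pow₀ (le_add_of_nonneg_right (by positivity))))
    ((lam_le' hR (by omega)).trans h1) _).trans ?_
  exact pow_le_pow_of_le_one (by norm_num) (by norm_num) (by omega)

theorem h_reduce [Inhabited Γ] [Inhabited Λ'] (hΓ : Fintype.card Λ' ^ 3 ≤ Fintype.card Γ)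
    {τ : Asg K (Γ × Λ') → Lang} {w N s : ℕ} (hw : 1 ≤ w) (hN : N < 2 ^ s) (hs : 1 ≤ s) (k d : ℕ)
    (hd : 1 ≤ d) (hK : d + k < K) (hR : 8 * ((s * w) ^ k * w) ≤ Fintype.card Λ')
    (h : ∃ ch κ, HS τ (d + k) ch κ) (F : Finset (Lang → Bool)) (hF : F.card ≤ N)
    (hAC : AC w N k (F : Set (Lang → Bool))) :
    ∃ ch κ, HS τ d ch κ ∧ ∀ f ∈ F, Cert Tr ((s * w) ^ k * w) (f ∘ κ) := by
  induction k generalizing d F with
  | zero =>
    obtain ⟨ch, κ, h⟩ := h
    refine ⟨ch, κ, h, fun f hf => (cert_dt cl_tr (d := 1) (hAC f hf) ?_).mono (by simp)⟩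
    rintro _ ⟨v, rfl⟩
    exact h.2.1 v
  | succ k ih =>
    obtain ⟨G, hG, hGAC, hor⟩ := hAC
    have hpos : 1 ≤ (s * w) ^ k * w := Nat.mul_pos (Nat.pow_pos (Nat.mul_pos hs hw)) hw
    have he : (s * w) ^ (k + 1) * w = s * (w * ((s * w) ^ k * w)) := by ring
    have hle : w * ((s * w) ^ k * w) ≤ (s * w) ^ (k + 1) * w := by
      rw [he]; exact Nat.le_mul_of_pos_left _ hs
    have hle' : (s * w) ^ k * w ≤ w * ((s * w) ^ k * w) := Nat.le_mul_of_pos_left _ hw
    obtain ⟨ch, κ, h1, h2⟩ := ih (d + 1) (by omega) (by omega) (by omega)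
      (by rwa [add_assoc, add_comm 1 k]) G hG hGAC
    have h4 := exists_good (Ω := Oh d Γ Λ') F (hF.trans_lt hN)
      (B := fun f ω => ¬Cert Tr (s * (w * ((s * w) ^ k * w))) ((f ∘ κ) ∘ hp ch ω))
      fun f hf Z hZ => (h_step hΓ h1.1 (by omega) (or1_isOr cl_tr (hor f hf) ?_) s Z hZ).trans
        (mul_le_mul_of_nonneg_right (half_le (by omega) (by omega) s) (by positivity))
    · obtain ⟨ω, hω⟩ := h4
      obtain ⟨ch', h3⟩ := h1.peel hd (by omega) ω
      exact ⟨ch', _, h3, fun f hf => he ▸ not_not.1 (hω f hf)⟩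
    · rintro g (hg | hg)
      · exact h2 g hg
      · refine (cert_dt cl_tr (d := 1) hg ?_).mono hpos
        rintro _ ⟨v, rfl⟩
        exact h1.2.1 v

/-- Every bit of the oracle is fixed or is a leaf of the tree. -/
def Lf {Λ : Type} (τ : Asg K Λ → Lang) : Prop :=
  ∀ w, (∃ b, ∀ c, τ c w = b) ∨ ∃ l : List Λ, l.length = K ∧ ∀ c, τ c w = st c l

theorem h_final [Inhabited Γ] [Inhabited Λ'] [Nontrivial Γ]
    (hΓ : Fintype.card Λ' ^ 3 ≤ Fintype.card Γ) {k w N s : ℕ}
    {τ : Asg (k + 3) (Γ × Λ') → Lang} (hτ : Lf τ) (hw : 1 ≤ w) (hN : N < 2 ^ s) (hN1 : 1 ≤ N)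
    (hR : 8 * ((s * w) ^ k * w) ≤ Fintype.card Λ') {f : Lang → Bool} (hAC : AC w N k {f})
    (a a' : Γ × Λ') : ∃ c, f (τ c) ≠ st c [a', a] := by
  classical
  have hs : 1 ≤ s := Nat.pos_of_ne_zero fun h => by subst h; omega
  have hpos : 1 ≤ (s * w) ^ k * w := Nat.mul_pos (Nat.pow_pos (Nat.mul_pos hs hw)) hw
  have h0 : ∀ w, ∃ r : (List (Γ × Λ') → Bool) → Bool, Cert Tr 1 r ∧ ∀ c z,
      (∀ v, v.length = 2 + k + 1 → z v = st c v) → r z = τ c w := by
    intro w
    rcases hτ w with ⟨b, hb⟩ | ⟨l, h1, h2⟩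
    · exact ⟨_, cert_const cl_tr 1 b, fun c _ _ => (hb c).symm⟩
    · exact ⟨fun z => z l, fun z => ⟨{l}, trivial, by simp, by simp⟩,
        fun c z hz => (hz l (by omega)).trans (h2 c).symm⟩
  choose r r1 r2 using h0
  obtain ⟨ch, κ, ⟨h1, -, h2⟩, h3⟩ := h_reduce hΓ (τ := τ) hw hN hs k 2 (by omega) (by omega) hR
    ⟨fun _ μ => (default, μ), fun z w => r w z, fun _ _ _ e => (Prod.mk.inj e).2, r1,
      fun c _ => ⟨c, fun _ _ => rfl, fun z hz => funext fun w => r2 w c z hz⟩⟩ {f} (by simpa)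
    (by simpa using hAC)
  obtain ⟨D, -, a2, a3⟩ := h3 f (mem_singleton_self f) fun _ => true
  choose μ hμ using exists_free h1 (D := D) (by omega)
  obtain ⟨a'', ha⟩ : ∃ a'', (f ∘ κ) (fun _ => true) = decide (a'' = a') := by
    cases (f ∘ κ) fun _ => true
    · obtain ⟨x, hx⟩ := exists_ne a'
      exact ⟨x, by simp [hx]⟩
    · exact ⟨a', by simp⟩
  let c : Asg (k + 3) (Γ × Λ') := fun p => if p.1.length = 2 then ch p.1 (μ p.1) else a''
  obtain ⟨c', b1, b2⟩ := h2 c fun p hp => ⟨_, if_pos hp⟩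
  refine ⟨c', ?_⟩
  rw [← b2 (fun v => if v.length = 2 + 1 then st c v else true) fun v hv => if_pos hv]
  refine ne_of_eq_of_ne ((a3 _ fun v hv => ?_).trans ha) ?_
  · split_ifs with h
    · obtain ⟨b, p, rfl⟩ := List.exists_cons_of_length_eq_add_one h
      have : ¬crit c p b := fun ⟨h', e⟩ => hμ p (by
        rw [show ch p (μ p) = b from (if_pos (by simpa using h)).symm.trans e]
        exact hv)
      simp [st, this]
    · rfl
  · have : crit c' [a] a' ↔ a'' = a' := by
      simp [crit, b1 ⟨[a], by simp⟩ rfl, c]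
    simp [st, this]

end Pool.Agent.MP_a2d820_lc.h55

end MrgPart2

-- ======== part 3: formerly Pool.Agent.MP_a2d820_lc.h55.Rounds
section MrgPart3

/-!
Many rounds of thinning: most shallow computations become constant after a few of them.
-/

set_option autoImplicit false

namespace Pool.Agent.MP_a2d820_lc.h55

open Finset Pool.Agent.MP_a2d820_lc.h69

section Chain

variable {X : Type} {W : X → Type} [∀ x, Fintype (W x)] (mv : ∀ x, W x → X)

/-- The mean over one random move. -/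
noncomputable def Ev : Module.End ℝ (X → ℝ) where
  toFun φ x := (∑ ω, φ (mv x ω)) / Fintype.card (W x)
  map_add' φ ψ := funext fun x => by simp [sum_add_distrib, add_div]
  map_smul' a φ := funext fun x => by simp [← mul_sum, mul_div_assoc]

/-- Reachable in `k` moves. -/
def Rch : ℕ → X → X → Prop
  | 0, x, x' => x' = x
  | k + 1, x, x' => ∃ ω, Rch k (mv x ω) x'

variable {mv}

theorem ev_mono {k : ℕ} {φ ψ : X → ℝ} {x : X} (h : ∀ x', Rch mv k x x' → φ x' ≤ ψ x') :
    (Ev mv ^ k) φ x ≤ (Ev mv ^ k) ψ x := by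
  induction k generalizing x with
  | zero => exact h x rfl
  | succ k ih =>
    rw [pow_succ']
    exact div_le_div_of_nonneg_right (sum_le_sum fun ω _ => ih fun x' hx => h x' ⟨ω, hx⟩)
      (by positivity)

theorem ev_const [∀ x, Nonempty (W x)] (k : ℕ) (a : ℝ) : (Ev mv ^ k) (fun _ => a) = fun _ => a := by
  induction k with
  | zero => rfl
  | succ k ih =>
    rw [pow_succ', Module.End.mul_apply, ih]
    funext x
    simp [Ev]

theorem ev_le [∀ x, Nonempty (W x)] {k : ℕ} {φ : X → ℝ} {x : X} {a : ℝ}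
    (h : ∀ x', Rch mv k x x' → φ x' ≤ a) : (Ev mv ^ k) φ x ≤ a :=
  (ev_mono h).trans (congrFun (ev_const k a) x).le

theorem ev_le_add [∀ x, Nonempty (W x)] {k : ℕ} {φ ψ : X → ℝ} {x : X} {a : ℝ}
    (h : ∀ x', Rch mv k x x' → Ev mv φ x' ≤ ψ x' + a) :
    (Ev mv ^ (k + 1)) φ x ≤ (Ev mv ^ k) ψ x + a := by
  rw [pow_succ, Module.End.mul_apply]
  refine (ev_mono (ψ := ψ + fun _ => a) h).trans (le_of_eq ?_)
  rw [map_add, ev_const]
  rfl

theorem exists_rch [∀ x, Nonempty (W x)] {k : ℕ} {φ : X → ℝ} {x : X} (h : (Ev mv ^ k) φ x < 1) :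
    ∃ x', Rch mv k x x' ∧ φ x' < 1 := by
  by_contra hc
  push Not at hc
  exact absurd ((congrFun (ev_const k 1) x).ge.trans (ev_mono hc)) h.not_ge

omit [∀ x, Fintype (W x)] in
theorem Rch.inv {J : X → Prop} (hJ : ∀ x ω, J x → J (mv x ω)) {k : ℕ} {x x' : X}
    (h : Rch mv k x x') (hx : J x) : J x' := by
  induction k generalizing x with
  | zero => exact h ▸ hx
  | succ k ih =>
    obtain ⟨ω, h⟩ := h
    exact ih h (hJ x ω hx)

end Chain

open Classical in
/-- The indicator of a proposition. -/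
noncomputable def ind (p : Prop) : ℝ := if p then 1 else 0

theorem ind_nonneg (p : Prop) : 0 ≤ ind p := by unfold ind; split_ifs <;> norm_num

theorem ind_le_one (p : Prop) : ind p ≤ 1 := by unfold ind; split_ifs <;> norm_num

theorem ind_of {p : Prop} (h : p) : ind p = 1 := if_pos h

theorem ind_of_not {p : Prop} (h : ¬p) : ind p = 0 := if_neg h

theorem ind_mono {p q : Prop} (h : p → q) : ind p ≤ ind q := by
  by_cases hp : p
  · rw [ind_of hp, ind_of (h hp)]
  · exact ind_of_not hp ▸ ind_nonneg q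

/-- The labels with `i` rounds to go. -/
def Lab (C : ℕ) (L : Type) : ℕ → Type
  | 0 => L
  | i + 1 => (Fin C → Lab C L i) × Lab C L i

variable {K C : ℕ} {L β : Type}

instance labFin [h : Fintype L] : ∀ i, Fintype (Lab C L i)
  | 0 => h
  | i + 1 => letI := labFin i; inferInstanceAs (Fintype (_ × _))

instance labDec [h : DecidableEq L] : ∀ i, DecidableEq (Lab C L i)
  | 0 => h
  | i + 1 => letI := labDec i; inferInstanceAs (DecidableEq (_ × _))

instance labNe [h : Nonempty L] : ∀ i, Nonempty (Lab C L i)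
  | 0 => h
  | i + 1 => letI := labNe i; inferInstanceAs (Nonempty (_ × _))

theorem card_lab [Fintype L] (i : ℕ) :
    Fintype.card (Lab C L i) = Fintype.card L ^ (C + 1) ^ i := by
  induction i with
  | zero => exact (pow_one _).symm
  | succ i ih =>
    refine (Fintype.card_prod _ _).trans ?_
    rw [Fintype.card_fun, Fintype.card_fin, ih, ← pow_succ, ← pow_mul, ← pow_succ]

/-- The number of rounds to go, the oracles still possible, and the earlier sets of oracles. -/
structure Sx (K C : ℕ) (L : Type) where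
  i : ℕ
  τ : Asg K (Lab C L i) → Lang
  R : ℕ → Set Lang

/-- The random data of the next round. -/
def Wx : Sx K C L → Type
  | ⟨0, _, _⟩ => Unit
  | ⟨i + 1, _, _⟩ => Om K (Fin C → Lab C L i) (Lab C L i)

/-- One round. -/
noncomputable def mvx : ∀ x : Sx K C L, Wx x → Sx K C L
  | ⟨0, τ, R⟩, _ => ⟨0, τ, R⟩
  | ⟨i + 1, τ, R⟩, ω => ⟨i, τ ∘ rho ω, Function.update R i (Set.range (τ ∘ rho ω))⟩

/-- Every node at depth two has a name `u` under which its value is tested. -/
def Ts {Λ U : Type} (Z : U → Lang → Bool) (τ : Asg K Λ → Lang) : Prop :=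
  ∀ l : List Λ, l.length = 2 → ∃ u, ∀ c, Z u (τ c) = st c l

theorem Lf.rho {Γ Λ : Type} {τ : Asg K (Γ × Λ) → Lang} (h : Lf τ) (ω : Om K Γ Λ) :
    Lf (τ ∘ rho ω) := by
  intro w
  rcases h w with ⟨b, hb⟩ | ⟨l, h1, h2⟩
  · exact Or.inl ⟨b, fun _ => hb _⟩
  · by_cases hl : Alv ω.1 l
    · exact Or.inr ⟨l.map Prod.snd, by simpa, fun c => (h2 _).trans ((st_rho ω l).1 hl c)⟩
    · obtain ⟨b, hb⟩ := (st_rho ω l).2 hl
      exact Or.inl ⟨b, fun c => (h2 _).trans (hb c)⟩

theorem Ts.rho {Γ Λ U : Type} {Z : U → Lang → Bool} {τ : Asg K (Γ × Λ) → Lang} (h : Ts Z τ)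
    (hK : 2 ≤ K) (ω : Om K Γ Λ) : Ts Z (τ ∘ rho ω) := by
  intro l hl
  obtain ⟨p, h1, rfl⟩ := exists_alv ω.1 l (by omega)
  obtain ⟨u, hu⟩ := h p (by simpa using hl)
  exact ⟨u, fun c => (hu _).trans ((st_rho ω p).1 h1 c)⟩

theorem Lf.cert {Λ : Type} [Finite Λ] [DecidableEq Λ] {τ : Asg K Λ → Lang} (h : Lf τ)
    (w : List Bool) : Cert Anc K fun c => τ c w := by
  rcases h w with ⟨b, hb⟩ | ⟨l, -, h2⟩
  · exact funext hb ▸ cert_const cl_anc K b
  · exact funext h2 ▸ cert_st l

theorem Lf.dt {Λ : Type} [Finite Λ] [DecidableEq Λ] {τ : Asg K Λ → Lang} (h : Lf τ) {w : ℕ}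
    {f : Lang → Bool} (hf : DT w f) : Cert Anc (w * K) (f ∘ τ) :=
  cert_dt cl_anc hf (by rintro _ ⟨v, rfl⟩; exact h.cert v)

/-- What the rounds preserve. -/
def Iv (x : Sx K C L) : Prop :=
  Lf x.τ ∧ x.R x.i = Set.range x.τ ∧ ∀ t t', x.i ≤ t → t ≤ t' → x.R t ⊆ x.R t'

theorem iv_mv (x : Sx K C L) (ω : Wx x) (h : Iv x) : Iv (mvx x ω) := by
  obtain ⟨_ | i, τ, R⟩ := x
  · exact h
  obtain ⟨h1, h2, h3⟩ := h
  refine ⟨h1.rho ω, Function.update_self .., fun t t' a b => ?_⟩
  simp only [mvx] at a h2 h3 ⊢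
  rcases a.eq_or_lt with rfl | a
  · rcases b.eq_or_lt with rfl | b
    · exact subset_rfl
    · rw [Function.update_self, Function.update_of_ne b.ne']
      exact (Set.range_comp_subset_range _ _).trans (h2.ge.trans (h3 _ _ le_rfl b))
  · rw [Function.update_of_ne a.ne', Function.update_of_ne (a.trans_le b).ne']
    exact h3 _ _ a b

theorem rch_mv {k : ℕ} {x x' : Sx K C L} (h : Rch mvx k x x') :
    x'.i = x.i - k ∧ ∀ t, x.i ≤ t → x'.R t = x.R t := by
  induction k generalizing x with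
  | zero => exact h ▸ ⟨rfl, fun _ _ => rfl⟩
  | succ k ih =>
    obtain ⟨ω, h⟩ := h
    obtain ⟨h1, h2⟩ := ih h
    obtain ⟨_ | i, τ, R⟩ := x
    · exact ⟨by simpa [mvx] using h1, h2⟩
    · simp only [mvx] at h1 h2 ⊢
      exact ⟨by omega, fun t ht => (h2 t (by omega)).trans (Function.update_of_ne (by omega) ..)⟩

noncomputable instance omFin (Γ Λ : Type) [Fintype Γ] [DecidableEq Γ] [Fintype Λ] [DecidableEq Λ] :
    Fintype (Om K Γ Λ) := inferInstance

variable [Fintype L] [DecidableEq L] [Nonempty L]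

noncomputable instance : ∀ x : Sx K C L, Fintype (Wx x)
  | ⟨0, _, _⟩ => inferInstanceAs (Fintype Unit)
  | ⟨_ + 1, _, _⟩ => omFin _ _

instance : ∀ x : Sx K C L, Nonempty (Wx x)
  | ⟨0, _, _⟩ => inferInstanceAs (Nonempty Unit)
  | ⟨_ + 1, _, _⟩ => inferInstanceAs (Nonempty (Om _ _ _))

theorem s_round {x : Sx K (3 * 2 ^ K) L} (hx : 1 ≤ x.i) {d : ℕ} {b : β} {f : Lang → β}
    (hf : Or1 Anc d b (f ∘ x.τ)) (s : ℕ) :
    Ev mvx (fun x' => ind ¬Cert Anc (s * d) (f ∘ x'.τ)) x ≤
      ((1 + 2 / Fintype.card L) ^ d - 1) ^ (s + 1) := by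
  classical
  obtain ⟨_ | i, τ, R⟩ := x
  · simp at hx
  have h := s_step (by rw [Fintype.card_fun, Fintype.card_fin]) hf s
    {ω | ¬Cert Anc (s * d) ((f ∘ τ) ∘ rho ω)} fun ω hω => (mem_filter.1 hω).2
  have h0 : (0 : ℝ) < Fintype.card L := by exact_mod_cast Fintype.card_pos
  have h1 : (Fintype.card L : ℝ) ≤ Fintype.card (Lab (3 * 2 ^ K) L i) := by
    rw [card_lab]
    exact_mod_cast Nat.le_self_pow (by positivity) _
  refine (div_le_iff₀ (by exact_mod_cast Fintype.card_pos)).2 (le_trans (le_of_eq ?_) (h.trans ?_))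
  · rw [← sum_boole]
    exact sum_congr rfl fun ω _ => (ite_eq_ite _ _ _).2 trivial
  · have h2 : (0 : ℝ) ≤ 2 / Fintype.card (Lab (3 * 2 ^ K) L i) := by positivity
    refine mul_le_mul_of_nonneg_right (pow_le_pow_left₀ (sub_nonneg.2 (one_le_pow₀
      (le_add_of_nonneg_right h2))) ?_ _) (Nat.cast_nonneg _)
    gcongr

theorem ac_rounds {w N s : ℕ} (hw : 1 ≤ w) (hs : 1 ≤ s) (k : ℕ)
    (hR : 8 * ((s * w) ^ k * (w * K)) ≤ Fintype.card L) {x : Sx K (3 * 2 ^ K) L} (hx : Iv x)
    (hk : k ≤ x.i) (F : Finset (Lang → Bool)) (hF : F.card ≤ N)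
    (hAC : AC w N k (F : Set (Lang → Bool))) :
    (Ev mvx ^ k) (fun x' => ind ¬∀ f ∈ F, Cert Anc ((s * w) ^ k * (w * K)) (f ∘ x'.τ)) x ≤
      k * (N * (1 / 2) ^ s) := by
  induction k generalizing F with
  | zero =>
    exact (ind_of_not (not_not.2 fun f hf => by simpa using hx.1.dt (hAC f hf))).le.trans (by simp)
  | succ k ih =>
    obtain ⟨G, hG, hGAC, hor⟩ := hAC
    have he : (s * w) ^ (k + 1) * (w * K) = s * (w * ((s * w) ^ k * (w * K))) := by ring
    have hle : w * ((s * w) ^ k * (w * K)) ≤ (s * w) ^ (k + 1) * (w * K) := by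
      rw [he]; exact Nat.le_mul_of_pos_left _ hs
    have hle' : (s * w) ^ k * (w * K) ≤ w * ((s * w) ^ k * (w * K)) := Nat.le_mul_of_pos_left _ hw
    have hpos : 1 * K ≤ (s * w) ^ k * (w * K) := (Nat.mul_le_mul_right _ hw).trans
      (Nat.le_mul_of_pos_left _ (Nat.pow_pos (Nat.mul_pos hs hw)))
    refine (ev_le_add (a := N * (1 / 2) ^ s) fun x' hx' => ?_).trans
      ((add_le_add_left (ih (by omega) (by omega) G hG hGAC) _).trans (le_of_eq ?_))
    · by_cases h : ∀ f ∈ G, Cert Anc ((s * w) ^ k * (w * K)) (f ∘ x'.τ)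
      · rw [ind_of_not (not_not.2 h), zero_add, ← pow_one (Ev mvx)]
        refine (ev_mono (ψ := ∑ f ∈ F, fun x'' => ind ¬Cert Anc (s * (w * ((s * w) ^ k * (w * K))))
          (f ∘ x''.τ)) fun x'' _ => ?_).trans ?_
        · rw [Finset.sum_apply]
          by_cases h' : ∀ f ∈ F, Cert Anc ((s * w) ^ (k + 1) * (w * K)) (f ∘ x''.τ)
          · rw [ind_of_not (not_not.2 h')]
            exact sum_nonneg fun _ _ => ind_nonneg _
          · rw [ind_of h']
            push Not at h'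
            obtain ⟨f, hf, h'⟩ := h'
            exact (ind_of (he ▸ h')).ge.trans (single_le_sum (fun _ _ => ind_nonneg _) hf)
        · rw [pow_one, map_sum, Finset.sum_apply]
          refine (sum_le_card_nsmul _ _ ((1 / 2) ^ s) fun f hf => (s_round ?_
            (or1_isOr cl_anc (hor f hf) ?_) s).trans
              (half_le Fintype.card_pos (by omega) s)).trans ?_
          · have := (rch_mv hx').1
            omega
          · rintro g (hg | hg)
            · exact h g hg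
            · exact ((hx'.inv iv_mv hx).1.dt hg).mono hpos
          · rw [nsmul_eq_mul]
            gcongr
      · rw [ind_of h, ← pow_one (Ev mvx)]
        exact (ev_le fun _ _ => ind_le_one _).trans (le_add_of_nonneg_right (by positivity))
    · push_cast
      ring

/-- The string `g θ` and the answer of `h` to it do not depend on `θ ∈ S`. -/
def Cst (S : Set Lang) (g : Lang → List Bool) (h : List Bool → Lang → Bool) : Prop :=
  ∃ y b, ∀ θ ∈ S, g θ = y ∧ h y θ = b

/-- The shape of a sampler followed by a circuit. -/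
def Shp (K w N d k : ℕ) (g : Lang → List Bool) (h : List Bool → Lang → Bool) : Prop :=
  (∀ (Λ : Type) [Finite Λ] (τ : Asg K Λ → Lang), Lf τ → Cert Anc d (g ∘ τ)) ∧
    ∃ Y : Finset (List Bool), Y.card ≤ N ∧ (∀ θ, g θ ∈ Y) ∧ AC w N k (h '' Y)

theorem cst_rounds {w N s d : ℕ} (hw : 1 ≤ w) (hs : 1 ≤ s) (k : ℕ)
    (hR : 8 * (d + (s * w) ^ k * (w * K)) ≤ Fintype.card L) {x : Sx K (3 * 2 ^ K) L} (hx : Iv x)
    (hk : k + 1 ≤ x.i) {g : Lang → List Bool} {h : List Bool → Lang → Bool}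
    (hS : Shp K w N d k g h) :
    (Ev mvx ^ (k + 1)) (fun x' => ind ¬Cst (Set.range x'.τ) g h) x ≤
      k * (N * (1 / 2) ^ s) + 4 * (d + (s * w) ^ k * (w * K) : ℕ) / Fintype.card L := by
  classical
  obtain ⟨h1, Y, h2, h3, h4⟩ := hS
  refine (ev_le_add fun x' hx' => ?_).trans (add_le_add_left (ac_rounds hw hs k (by omega) hx
    (by omega) (Y.image h) (card_image_le.trans h2) (by rwa [coe_image])) _)
  by_cases h' : ∀ f ∈ Y.image h, Cert Anc ((s * w) ^ k * (w * K)) (f ∘ x'.τ)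
  · rw [ind_of_not (not_not.2 h'), zero_add]
    have h5 : Cert Anc (d + (s * w) ^ k * (w * K)) ((fun θ => (g θ, h (g θ) θ)) ∘ x'.τ) :=
      Cert.bind cl_anc (h := fun y c => (y, h y (x'.τ c))) (h1 _ _ (hx'.inv iv_mv hx).1) fun c c' => by
        obtain ⟨D, a1, a2, a3⟩ := h' _ (mem_image_of_mem _ (h3 (x'.τ c))) c'
        exact ⟨D, a1, a2, fun c'' hc => Prod.ext rfl (a3 c'' hc)⟩
    refine le_trans ?_ ((s_round (by have := (rch_mv hx').1; omega) (h5.or1 ([], false)) 0).trans ?_)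
    · rw [← pow_one (Ev mvx)]
      refine ev_mono fun x'' _ => ind_mono (mt fun h6 => ?_)
      rw [zero_mul] at h6
      obtain ⟨c⟩ : Nonempty (Asg K (Lab (3 * 2 ^ K) L x''.i)) := inferInstance
      refine ⟨g (x''.τ c), h (g (x''.τ c)) (x''.τ c), ?_⟩
      rintro _ ⟨c', rfl⟩
      obtain ⟨e1, e2⟩ := Prod.mk.inj (h6.const c c')
      exact ⟨e1, e1 ▸ e2⟩
    · rw [zero_add, pow_one]
      exact lam_le' Fintype.card_pos (by omega)
  · rw [ind_of h', ← pow_one (Ev mvx)]
    exact (ev_le fun _ _ => ind_le_one _).trans (le_add_of_nonneg_right (by positivity))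

theorem rounds {w N s d I : ℕ} (hw : 1 ≤ w) (hs : 1 ≤ s) (hK : 2 ≤ K)
    (hR : 8 * (d + (s * w) ^ I * (w * K)) ≤ Fintype.card L)
    {τ₀ : Asg K (Lab (3 * 2 ^ K) L I) → Lang} (h0 : Lf τ₀) {U J : Type} {Z : U → Lang → Bool}
    (hZ : Ts Z τ₀) (Tp : Finset J) (wt : J → ℝ) (hwt : ∀ j, 0 ≤ wt j) (a k : J → ℕ)
    (hi : ∀ j ∈ Tp, a j + (k j + 1) ≤ I) (g : J → (ℕ → Set Lang) → Lang → List Bool)
    (h : J → (ℕ → Set Lang) → List Bool → Lang → Bool)
    (hl : ∀ j ∈ Tp, ∀ R R' S, (∀ t, I - a j ≤ t → R t = R' t) → Cst S (g j R) (h j R) →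
      Cst S (g j R') (h j R'))
    (hS : ∀ j ∈ Tp, ∀ R, Shp K w N d (k j) (g j R) (h j R))
    (hε : (∑ j ∈ Tp, wt j) * (I * (N * (1 / 2) ^ s) +
      4 * (d + (s * w) ^ I * (w * K) : ℕ) / Fintype.card L) < 1) :
    ∃ (τ : Asg K L → Lang) (R : ℕ → Set Lang), Lf τ ∧ Ts Z τ ∧ R 0 = Set.range τ ∧ Monotone R ∧
      R I = Set.range τ₀ ∧
        ∑ j ∈ Tp, wt j * ind (¬Cst (R (I - (a j + (k j + 1)))) (g j R) (h j R)) < 1 := by
  let x₀ : Sx K (3 * 2 ^ K) L := ⟨I, τ₀, fun _ => Set.range τ₀⟩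
  have hx₀ : Iv x₀ := ⟨h0, rfl, fun _ _ _ _ => subset_rfl⟩
  obtain ⟨x, h1, h2⟩ := exists_rch (mv := mvx) (k := I) (x := x₀) (φ := ∑ j ∈ Tp, wt j •
    fun x => ind ¬Cst (x.R (I - (a j + (k j + 1)))) (g j x.R) (h j x.R)) (by
      rw [map_sum, Finset.sum_apply]
      refine lt_of_le_of_lt ?_ hε
      rw [sum_mul]
      refine sum_le_sum fun j hj => ?_
      rw [map_smul]
      refine mul_le_mul_of_nonneg_left ?_ (hwt j)
      have e : Ev (mvx (K := K) (C := 3 * 2 ^ K) (L := L)) ^ I =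
          Ev mvx ^ a j * (Ev mvx ^ (k j + 1) * Ev mvx ^ (I - (a j + (k j + 1)))) := by
        rw [← pow_add, ← pow_add, ← add_assoc, Nat.add_sub_cancel' (hi j hj)]
      have h3 := hi j hj
      have h4 : (s * w) ^ k j * (w * K) ≤ (s * w) ^ I * (w * K) :=
        Nat.mul_le_mul_right _ (Nat.pow_le_pow_right (Nat.mul_pos hs hw) (by omega))
      rw [e, Module.End.mul_apply, Module.End.mul_apply]
      refine ev_le fun x₁ r₁ => ?_
      have i₁ := r₁.inv iv_mv hx₀
      obtain ⟨a1, -⟩ := rch_mv r₁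
      simp only [x₀] at a1
      refine le_trans (ev_mono fun x₂ r₂ => ev_le fun x₃ r₃ => ind_mono (mt fun hc => ?_))
        ((cst_rounds hw hs (k j) (by omega) i₁ (by omega) (hS j hj x₁.R)).trans ?_)
      · obtain ⟨b1, b2⟩ := rch_mv r₂
        obtain ⟨-, c2⟩ := rch_mv r₃
        rw [show I - (a j + (k j + 1)) = x₂.i by omega, c2 _ le_rfl, (r₂.inv iv_mv i₁).2.1]
        exact hl j hj _ _ _ (fun t ht => ((c2 t (by omega)).trans (b2 t (by omega))).symm) hc
      · gcongr
        omega)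
  have i₁ := h1.inv iv_mv hx₀
  have i₂ := h1.inv (J := fun x => Ts Z x.τ) (fun x ω hx => by
    obtain ⟨_ | i, τ, R⟩ := x
    · exact hx
    · exact hx.rho hK ω) hZ
  obtain ⟨a1, a2⟩ := rch_mv h1
  obtain ⟨i, τ, R⟩ := x
  obtain rfl : i = 0 := by simpa [x₀] using a1
  exact ⟨τ, R, i₁.1, i₂, i₁.2.1, fun t t' => i₁.2.2 t t' (Nat.zero_le _), a2 I le_rfl,
    by simpa [Finset.sum_apply] using h2⟩

end Pool.Agent.MP_a2d820_lc.h55

end MrgPart3

-- ======== part 4: formerly Pool.Agent.MP_a2d820_lc.h55.Orc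
section MrgPart4

/-!
Clocked samplers, the part of the oracle that answers questions, and the two test languages.
-/

set_option autoImplicit false

namespace Pool.Agent.MP_a2d820_lc.h55

open Pool.Agent.PolyT Pool.Agent.H82 N487b59b3 Function Finset Pool.Agent.MP_a2d820_lc.h69

/-- The configuration in which the machine is stopped. -/
def clkO (M : OM) (s : ℕ) (O : Lang) : ℕ → List Bool → List Bool
  | 0, c => c
  | t + 1, c => if c.head? = some true ∧ c.length ≤ s then clkO M s O t (M.step O c) else c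

/-- The function of a clocked machine. -/
def smp (M : OM) (p : Polynomial ℕ) (O : Lang) (x : List Bool) : List Bool :=
  (clkO M (p.eval x.length) O (p.eval x.length) (true :: true :: x)).tail.take (p.eval x.length)

theorem clkO_eq {M : OM} {s : ℕ} {O : Lang} {y : List Bool} (f t : ℕ) (c : List Bool) (ht : t ≤ f)
    (h1 : (M.step O)^[t] c = false :: y)
    (h2 : ∀ r < t, ((M.step O)^[r] c).head? = some true ∧ ((M.step O)^[r] c).length ≤ s) :
    clkO M s O f c = false :: y := by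
  induction f generalizing t c with
  | zero =>
    obtain rfl : t = 0 := by omega
    exact h1
  | succ f ih =>
    cases t with
    | zero =>
      obtain rfl : c = false :: y := h1
      simp [clkO]
    | succ t =>
      rw [clkO, if_pos (show c.head? = some true ∧ c.length ≤ s from h2 0 (by omega))]
      exact ih t _ (by omega) h1 fun r hr => h2 (r + 1) (by omega)

theorem exists_smp {O : Lang} {g : List Bool → List Bool} (h : g ∈ RelFP O) :
    ∃ M p, g = smp M p O := by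
  obtain ⟨M, p, h⟩ := h
  refine ⟨M, p, funext fun x => ?_⟩
  obtain ⟨t, ht, h1, h3, h2⟩ := h x
  simp only [OM.run_eq] at h1 h2
  rw [smp, clkO_eq _ t _ ht h1 h2, List.tail_cons, List.take_of_length_le h3]

theorem clkO_congr {M : OM} {s : ℕ} {O O' : Lang}
    (hO : ∀ c, c.length ≤ s → O (M.qry c) = O' (M.qry c)) (f : ℕ) (c : List Bool) :
    clkO M s O f c = clkO M s O' f c := by
  induction f generalizing c with
  | zero => rfl
  | succ f ih =>
    rw [clkO, clkO]
    split_ifs with h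
    · rw [ih, OM.step, OM.step, hO c h.2]
    · rfl

theorem clkO_cert {ι α : Type} [DecidableEq ι] {P : Finset ι → Prop} (hP : Cl P) {d : ℕ}
    {O : (ι → α) → Lang} (hO : ∀ w, Cert P d fun z => O z w) (M : OM) (s f : ℕ) (c : List Bool) :
    Cert P (f * d) fun z => clkO M s (O z) f c := by
  induction f generalizing c with
  | zero => exact cert_const hP _ c
  | succ f ih =>
    by_cases h : c.head? = some true ∧ c.length ≤ s
    · simp only [clkO, if_pos h]
      exact (Cert.bind hP (h := fun b z => clkO M s (O z) f (M.nxt (c, b))) (hO (M.qry c))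
        fun z => ih _).mono (by rw [Nat.succ_mul, add_comm])
    · simp only [clkO, if_neg h]
      exact cert_const hP _ c

/-- Towers of clocked machines. -/
abbrev Tw : Type := (OM × Polynomial ℕ) × List (OM × Polynomial ℕ × Polynomial ℕ)

/-- A tower together with a clocked sampler and the number of its random bits. -/
abbrev Rq : Type := Tw × OM × Polynomial ℕ × Polynomial ℕ

/-- The polynomial `S` bounds everything that the sampler and the tower read. -/
def Bnd (ξ : Rq) (S : Polynomial ℕ) : Prop :=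
  ∀ n r, r.length = ξ.2.2.2.eval n → n ≤ S.eval n ∧
    ξ.2.2.1.eval (tag n r).length ≤ S.eval n ∧
    (∀ A A' : Lang, (∀ v, v.length ≤ S.eval n → A v = A' v) →
      smp ξ.2.1 ξ.2.2.1 A (tag n r) = smp ξ.2.1 ξ.2.2.1 A' (tag n r) ∧
      ∀ y, y.length ≤ ξ.2.2.1.eval (tag n r).length → ev ξ.1.1 ξ.1.2 A y = ev ξ.1.1 ξ.1.2 A' y) ∧
    ∀ (σ : Lang → Lang) (w : ℕ), (∀ v, DT 1 fun z => σ z v) → S.eval n ≤ w →
      AC w (2 ^ w) ξ.1.2.length {f | ∃ y : List Bool, y.length ≤ ξ.2.2.1.eval (tag n r).length ∧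
        f = fun z => ev ξ.1.1 ξ.1.2 (σ z) y}

theorem exists_bnd (ξ : Rq) : ∃ S, Bnd ξ S := by
  obtain ⟨⟨b, l⟩, M, q, p⟩ := ξ
  obtain ⟨B, h1, h2⟩ := ev_bound b l
  obtain ⟨Q, hQ⟩ := M.exists_qb
  let m := q.comp (2 * Polynomial.X + 1 + p)
  refine ⟨Polynomial.X + m + Q.comp m + B.comp m, fun n r hr => ?_⟩
  have e : q.eval (tag n r).length = m.eval n := by simp [m, tag, hr]
  simp only [Polynomial.eval_add, Polynomial.eval_comp, Polynomial.eval_X, e]
  refine ⟨by omega, by omega, fun A A' h => ⟨?_, fun y hy => h1 A A' y _ hy fun v hv =>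
    h v (by omega)⟩, fun σ w hσ hw => h2 _ σ _ _ _ hσ (by omega)
      (Nat.pow_le_pow_right (by norm_num) (by omega))⟩
  rw [smp, smp, clkO_congr fun c hc => h _ ?_]
  have := hQ c _ (e ▸ hc)
  omega

theorem length_smp (M : OM) (p : Polynomial ℕ) (O : Lang) (x : List Bool) :
    (smp M p O x).length ≤ p.eval x.length := List.length_take_le _ _

open Classical in
/-- The question `(u, y, e)` is answered when all oracles in `R |u|` give the value named by `e`. -/
noncomputable def hlp (mc : ℕ → Tw × Bool) (R : ℕ → Set Lang) : Lang :=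
  fix fun q O => decide (∃ u y e, q = ad u y e ∧ ∀ θ ∈ R u.length,
    ev (mc e).1.1 (mc e).1.2 (trunc u.length (join θ O)) y = (mc e).2)

theorem trunc_congr {l : ℕ} {θ θ' O O' : Lang} (h : ∀ v, v.length < l → θ v = θ' v)
    (h' : ∀ v, v.length < l → O v = O' v) : trunc l (join θ O) = trunc l (join θ' O') := by
  funext v
  by_cases hv : v.length < l
  · rcases v with _ | ⟨_ | _, v⟩
    · rfl
    · simp only [trunc, join, h v (by simp at hv; omega)]
    · simp only [trunc, join, h' v (by simp at hv; omega)]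
  · simp [trunc, hv]

theorem hlp_iff (mc : ℕ → Tw × Bool) (R : ℕ → Set Lang) (q : List Bool) :
    hlp mc R q = true ↔ ∃ u y e, q = ad u y e ∧ ∀ θ ∈ R u.length,
      ev (mc e).1.1 (mc e).1.2 (trunc u.length (join θ (hlp mc R))) y = (mc e).2 := by
  classical
  rw [hlp, fix, decide_eq_true_eq]
  refine exists₃_congr fun u y e => and_congr_right fun h => forall₂_congr fun θ _ => ?_
  rw [trunc_congr (fun _ _ => rfl) fun v hv => if_pos (h ▸ hv.trans_le (le_length_ad u y e))]

theorem hlp_ad (mc : ℕ → Tw × Bool) (R : ℕ → Set Lang) (u y : List Bool) (e : ℕ) :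
    hlp mc R (ad u y e) = true ↔ ∀ θ ∈ R u.length,
      ev (mc e).1.1 (mc e).1.2 (trunc u.length (join θ (hlp mc R))) y = (mc e).2 := by
  refine (hlp_iff ..).trans ⟨fun ⟨u', y', e', h, h'⟩ => ?_, fun h => ⟨u, y, e, rfl, h⟩⟩
  obtain ⟨rfl, rfl, rfl⟩ := ad_inj h
  exact h'

theorem hlp_congr (mc : ℕ → Tw × Bool) {R R' : ℕ → Set Lang} {l : ℕ} (h : ∀ t < l, R t = R' t)
    (q : List Bool) (hq : q.length < l) : hlp mc R q = hlp mc R' q := by
  induction hn : q.length using Nat.strong_induction_on generalizing q with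
  | _ n ih =>
    rw [Bool.eq_iff_iff, hlp_iff, hlp_iff]
    refine exists₃_congr fun u y e => and_congr_right fun h' => ?_
    have h1 := le_length_ad u y e
    rw [← h'] at h1
    rw [h _ (by omega)]
    refine forall₂_congr fun θ _ => ?_
    rw [trunc_congr (fun _ _ => rfl) fun v hv => ih _ (by omega) v (by omega) rfl]

theorem join_congr {l : ℕ} {θ θ' O O' : Lang} (h : ∀ v, v.length < l → θ v = θ' v)
    (h' : ∀ v, v.length < l → O v = O' v) (v : List Bool) (hv : v.length ≤ l) :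
    join θ O v = join θ' O' v := by
  rcases v with _ | ⟨_ | _, v⟩
  · rfl
  · exact h v hv
  · exact h' v hv

theorem dt_join (O : Lang) (v : List Bool) : DT 1 fun θ : Lang => join θ O v := by
  rcases v with _ | ⟨_ | _, v⟩
  · exact DTq.const 1 false
  · exact dt_var v
  · exact DTq.const 1 (O v)

/-- The parity of `a` over the strings of length `m` put in front of `p`. -/
def xr : ℕ → Lang → Lang
  | 0, a => a
  | m + 1, a => fun p => xor (xr m a (false :: p)) (xr m a (true :: p))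

theorem xr_add (m m' : ℕ) (a : Lang) : xr (m + m') a = xr m' (xr m a) := by
  induction m' with
  | zero => rfl
  | succ m' ih => rw [← add_assoc, xr, ih]; rfl

theorem xr_congr {m : ℕ} {a a' : Lang} {p p' : List Bool}
    (h : ∀ w, w.length = m → a (w ++ p) = a' (w ++ p')) : xr m a p = xr m a' p' := by
  induction m generalizing p p' with
  | zero => exact h [] rfl
  | succ m ih =>
    have : ∀ b, xr m a (b :: p) = xr m a' (b :: p') := fun b =>
      ih fun w hw => by simpa using h (w ++ [b]) (by simp [hw])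
    simp only [xr, this]

theorem xr_flip {m : ℕ} {a a' : Lang} {p w₀ : List Bool} (h0 : w₀.length = m)
    (h : ∀ w, w.length = m → w ≠ w₀ → a (w ++ p) = a' (w ++ p)) :
    xr m a p = xor (xr m a' p) (xor (a (w₀ ++ p)) (a' (w₀ ++ p))) := by
  induction m generalizing p w₀ with
  | zero =>
    obtain rfl := List.length_eq_zero_iff.1 h0
    simp only [xr, List.nil_append]
    cases a p <;> cases a' p <;> rfl
  | succ m ih =>
    obtain ⟨w₁, b, rfl⟩ : ∃ w₁ b, w₀ = w₁ ++ [b] := by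
      rcases List.eq_nil_or_concat' w₀ with rfl | h
      · simp at h0
      · exact h
    have h1 := ih (p := b :: p) (w₀ := w₁) (by simpa using h0) fun w hw hne => by
      simpa using h (w ++ [b]) (by simp [hw]) (by simpa using hne)
    have h2 : xr m a ((!b) :: p) = xr m a' ((!b) :: p) := xr_congr fun w hw => by
      simpa using h (w ++ [!b]) (by simp [hw]) fun e => by
        simpa using List.append_inj_right' e rfl
    rw [List.append_assoc]
    cases b
    · simp only [xr, h1, show xr m a (true :: p) = _ from h2, Bool.not_false, List.singleton_append]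
      rw [Bool.xor_right_comm]
    · simp only [xr, h1, show xr m a (false :: p) = _ from h2, Bool.not_true, List.singleton_append]
      rw [Bool.xor_assoc]

theorem xr_const {m : ℕ} (hm : 1 ≤ m) (b : Bool) (p : List Bool) : xr m (fun _ => b) p = false := by
  obtain ⟨m, rfl⟩ := Nat.exists_eq_add_of_le' hm
  simp only [xr]
  rw [xr_congr (a' := fun _ => b) (p := false :: p) (p' := true :: p) fun _ _ => rfl, Bool.xor_self]

theorem par_eq (A : Lang) (x : List Bool) :
    par A x (2 ^ x.length) = xr x.length (fun j => A (ad x j 0)) [] := by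
  have key : ∀ c ≤ 2 ^ x.length,
      par A x c = xr x.length (fun j => decide (ofBits j < c) && A (ad x j 0)) [] := by
    intro c hc
    induction c with
    | zero =>
      cases x.length
      · rfl
      · simpa [par] using xr_const (Nat.le_add_left _ _) _ _
    | succ c ih =>
      rw [par, ih (by omega), xr_flip (a := fun j => decide (ofBits j < c + 1) && A (ad x j 0))
        (a' := fun j => decide (ofBits j < c) && A (ad x j 0))
        (length_dig x c) fun w hw hne => ?_]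
      · simp [ofBits_dig (show c < 2 ^ x.length by omega)]
      · have h1 : ofBits w ≠ c := fun e =>
          hne (ofBits_inj (by simp [hw]) (by rw [ofBits_dig hc, e]))
        rw [List.append_nil, decide_eq_decide.2 (show ofBits w < c + 1 ↔ ofBits w < c by omega)]
  rw [key _ le_rfl]
  exact xr_congr fun w hw => by simp [hw ▸ ofBits_lt w]

/-- The second member of a pair of strings. -/
def col (w : List Bool) : List Bool := third (sel false w)

theorem row_enc (x j : List Bool) : row (bitEncode (x, j)) = x := by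
  simp [row, enc_pair, sel_pair, third_enc]

theorem col_enc (x j : List Bool) : col (bitEncode (x, j)) = j := by
  simp [col, enc_pair, sel_pair, third_enc]

/-- The value of the tree of height `i` below a node. -/
noncomputable def gl2 (A : Lang) (i : ℕ) : Lang := fun c =>
  nv (row (row c)).length i (fun j => A (false :: j)) (col c)

/-- The parity of the leaves below a node. -/
def par2 (A : Lang) : Lang := fun c => xr (col (row c)).length (fun j => A (false :: j)) (col c)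

theorem gl2_mem (A : Lang) (i : ℕ) : gl2 A i ∈ RelSigma A i := by
  have hrow : PolyT.Poly row := by unfold row; fun_prop
  have hcol : PolyT.Poly col := by unfold col; fun_prop
  induction i with
  | zero =>
    exact (funext fun c => Bool.false_xor _ : _ = gl2 A 0) ▸
      one_query (Q := fun c => false :: col c) (by fun_prop) false A
  | succ i ih =>
    obtain ⟨p, hp⟩ := (show PolyT.Poly fun c => row (row c) by fun_prop).bd
    refine ⟨_, ih, p.comp (3 * Polynomial.X), _, one_query (Q := fun d => true :: bitEncode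
      (row (sel true d), (sel false d ++ (row (row (sel true d))).map fun _ => false).take
        (row (row (sel true d))).length ++ col (sel true d))) (by fun_prop) true _, fun c => ?_⟩
    simp only [sel_pair, if_true, join, gl2, row_enc, col_enc, Bool.true_xor, Bool.not_eq_true',
      Bool.false_eq_true, if_false, nv, decide_eq_true_eq]
    constructor
    · rintro ⟨w, hw, h⟩
      have := hp c
      simp only [PolyT.Poly.enc_bools_length] at this
      refine ⟨w, ?_, by rwa [List.take_left' hw]⟩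
      simp only [Polynomial.eval_comp, Polynomial.eval_mul, Polynomial.eval_ofNat,
        Polynomial.eval_X]
      omega
    · rintro ⟨w, -, h⟩
      exact ⟨_, by simp, h⟩

theorem par2_mem (A : Lang) : par2 A ∈ RelPSPACE A := by
  have hrow : PolyT.Poly row := by unfold row; fun_prop
  have hcol : PolyT.Poly col := by unfold col; fun_prop
  obtain ⟨M, hM⟩ := exists_om (ini := fun x => (x, [], [false]))
    (Q := fun s => false :: (dig (col (row s.1)) (ofBits s.2.1) ++ col s.1))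
    (δ := fun p => (p.1.1, (ofBits p.1.2.1 + 1).bits, [xor (p.1.2.2.getD 0 false) p.2]))
    (fin := fun s => eqB (ofBits s.2.1) (ofBits (((col (row s.1)).map fun _ => false) ++ [true])))
    (out := fun p => p.1.2.2.getD 0 false)
    (by fun_prop) (by unfold dig; fun_prop) (by fun_prop) (by fun_prop) (by fun_prop)
  obtain ⟨p, hp⟩ := (show PolyT.Poly fun c => col (row c) by fun_prop).bd
  refine ⟨M, 6 * Polynomial.X + 6 * p.comp (3 * Polynomial.X) + 13,
    fun x => ⟨2 ^ (col (row x)).length + 1, ?_⟩⟩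
  have h1 : ofBits (((col (row x)).map fun _ => false) ++ [true]) = 2 ^ (col (row x)).length := by
    rw [ofBits_append]
    simpa using ofBits_false [] (col (row x))
  let A' : Lang := fun w => A (false :: (row (sel false w) ++ col x))
  have h3 : ∀ u j, A' (ad u j 0) = A (false :: (j ++ col x)) := fun u j => by
    simp [A', row, ad, enc_pair, sel_pair, third_enc]
  have h4 : par2 A x = par A' (col (row x)) (2 ^ (col (row x)).length) := by
    rw [par_eq]
    exact xr_congr fun w _ => by rw [List.append_nil, h3]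
  rw [h4]
  refine hM A x (2 ^ (col (row x)).length) _ (fun r => (x, r.bits, [par A' (col (row x)) r]))
    (by simp [par]) (fun r _ => by simp [ofBits_bits, par, h3])
    (fun r hr => by simpa only [ofBits_bits, h1, eqB_false_iff] using hr.ne)
    (by simp only [ofBits_bits, h1, eqB_iff]) (fun r hr => ?_) (by simp; omega)
  have h2 : r.bits.length ≤ (col (row x)).length + 1 := by
    rw [Nat.size_eq_bits_len]
    exact Nat.size_le.2 (hr.trans_lt (Nat.pow_lt_pow_right (by norm_num) (by omega)))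
  have := hp x
  simp only [PolyT.Poly.enc_bools_length] at this
  simp [length_st]
  omega

section Code

variable {K n : ℕ} {Λ : Type} (β : Λ ≃ (Fin n → Bool))

/-- The string that names a node. -/
def code (l : List Λ) : List Bool := l.flatMap fun a => List.ofFn (β a)

theorem length_code (l : List Λ) : (code β l).length = l.length * n := by simp [code]

theorem code_cons (a : Λ) (l : List Λ) : code β (a :: l) = List.ofFn (β a) ++ code β l := rfl

theorem code_inj {l l' : List Λ} (h : l.length = l'.length) (e : code β l = code β l') : l = l' := by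
  induction l generalizing l' with
  | nil => exact (List.length_eq_zero_iff.1 h.symm).symm
  | cons a l ih =>
    rcases l' with _ | ⟨a', l'⟩
    · simp at h
    · obtain ⟨e1, e2⟩ := List.append_inj e (by simp)
      rw [β.injective (List.ofFn_injective e1), ih (by simpa using h) e2]

theorem exists_code {w : List Bool} (hw : w.length = n) : ∃ a, List.ofFn (β a) = w := by
  subst hw
  exact ⟨β.symm w.get, by simp⟩

open Classical in
/-- The oracle `θ` with the leaves of the tree written on the strings of length `K * n`. -/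
noncomputable def plant (θ : Lang) (c : Asg K Λ) : Lang := fun w =>
  if h : ∃ l : List Λ, l.length = K ∧ code β l = w then st c h.choose else θ w

theorem plant_code (θ : Lang) (c : Asg K Λ) {l : List Λ} (hl : l.length = K) :
    plant β θ c (code β l) = st c l := by
  have h : ∃ l' : List Λ, l'.length = K ∧ code β l' = code β l := ⟨l, hl, rfl⟩
  rw [plant, dif_pos h, code_inj β (h.choose_spec.1.trans hl.symm) h.choose_spec.2]

theorem plant_out (θ : Lang) (c : Asg K Λ) {w : List Bool} (hw : w.length ≠ K * n) :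
    plant β θ c w = θ w :=
  dif_neg fun ⟨l, h1, h2⟩ => hw (by rw [← h2, length_code, h1])

theorem lf_plant (θ : Lang) : Lf (plant (K := K) β θ) := by
  intro w
  by_cases h : ∃ l : List Λ, l.length = K ∧ code β l = w
  · exact Or.inr ⟨h.choose, h.choose_spec.1, fun c => dif_pos h⟩
  · exact Or.inl ⟨θ w, fun c => dif_neg h⟩

theorem nv_plant (θ : Lang) (c : Asg K Λ) (i : ℕ) {l : List Λ} (hl : l.length + i = K) :
    nv n i (plant β θ c) (code β l) = st c l := by
  induction i generalizing l with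
  | zero => exact plant_code β θ c hl
  | succ i ih =>
    have h : ∀ a, nv n i (plant β θ c) (List.ofFn (β a) ++ code β l) = st c (a :: l) := fun a =>
      ih (l := a :: l) (by simp; omega)
    rw [Bool.eq_iff_iff]
    simp only [nv, decide_eq_true_eq]
    constructor
    · rintro ⟨w, hw, e⟩
      obtain ⟨a, rfl⟩ := exists_code β hw
      rw [h, st] at e
      simp_all
    · exact fun e => ⟨_, List.length_ofFn (f := β (c ⟨l, by omega⟩)), by
        simp [h, st, e, show crit c l (c ⟨l, by omega⟩) from ⟨_, rfl⟩]⟩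

theorem xr_plant (hn : 1 ≤ n) (θ : Lang) (c : Asg K Λ) (i : ℕ) {l : List Λ}
    (hl : l.length + i = K) : xr (i * n) (plant β θ c) (code β l) = st c l := by
  induction i generalizing l with
  | zero => simpa [xr] using plant_code β θ c hl
  | succ i ih =>
    have h : ∀ a, xr (i * n) (plant β θ c) (List.ofFn (β a) ++ code β l) = st c (a :: l) :=
      fun a => ih (l := a :: l) (by simp; omega)
    rw [Nat.succ_mul, xr_add, xr_flip (a' := fun _ => true)
      (List.length_ofFn (f := β (c ⟨l, by omega⟩))) fun w hw hne => ?_, xr_const hn, h]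
    · simp [st, show crit c l (c ⟨l, by omega⟩) from ⟨_, rfl⟩]
    · obtain ⟨a, rfl⟩ := exists_code β hw
      have : ¬crit c l a := fun ⟨_, e⟩ => hne (by rw [e])
      simp [h, st, this]

end Code

end Pool.Agent.MP_a2d820_lc.h55

end MrgPart4

-- marker of a merged file
example : 731051 + 604940 = 731051 + 604940 := rfl
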