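import Pool.Agent.MP_a2d820_lc.h55.Orc

/-!
One stage of the construction, and the limit of all stages.
-/

set_option autoImplicit false

namespace Pool.Agent.MP_a2d820_lc.h55

open Pool.Agent.PolyT Pool.Agent.H82 N487b59b3 Function Finset Pool.Agent.MP_a2d820_lc.h69

/-- The number of rounds known at length `t`. -/
def lvl (n t : ℕ) : ℕ := Nat.log 2 (Nat.log n t)

theorem lvl_mono (n : ℕ) {t t' : ℕ} (h : t ≤ t') : lvl n t ≤ lvl n t' :=
  Nat.log_mono_right (Nat.log_mono_right h)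

theorem lvl_le {n t I : ℕ} (h : t < n ^ 2 ^ I) : lvl n t ≤ I := by
  rcases eq_or_ne t 0 with rfl | h0
  · simp [lvl]
  exact (Nat.log_mono_right (Nat.log_lt_of_lt_pow h0 h).le).trans (Nat.log_pow (by norm_num) _).le

theorem lvl_add {n s t j : ℕ} (hn : 2 ≤ n) (hs : n ≤ s) (h : (s + 1) ^ 2 ^ j ≤ t) :
    lvl n s + j ≤ lvl n t := by
  have h1 : 0 < Nat.log n s := Nat.log_pos hn hs
  refine Nat.le_log_of_pow_le (by norm_num) (Nat.le_log_of_pow_le hn (le_trans ?_ h))
  rw [pow_add, pow_mul]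
  refine Nat.pow_le_pow_left ?_ _
  exact (Nat.pow_le_pow_right (by omega) (Nat.pow_log_le_self 2 h1.ne')).trans
    ((Nat.pow_log_le_self n (by omega)).trans (Nat.le_succ _))

theorem eps_lt {T I D L : ℕ} {x : ℝ} (hx : x ≤ T ^ 3) (hI : I ≤ T) (hq : 8 * (T ^ 3 * D) < L) :
    x * (I * ((2 ^ T : ℕ) * (1 / 2) ^ (5 * T + 1)) + 4 * D / L) < 1 := by
  have h0 : (0 : ℝ) < L := by exact_mod_cast (Nat.zero_le _).trans_lt hq
  have h1 : (T : ℝ) ^ 3 * (4 * D / L) < 1 / 2 := by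
    rw [← mul_div_assoc, div_lt_iff₀ h0]
    have : (8 * (T ^ 3 * D) : ℝ) < L := by exact_mod_cast hq
    linarith
  have h2 : (T : ℝ) ^ 3 * (I * ((2 ^ T : ℕ) * (1 / 2) ^ (5 * T + 1))) ≤ 1 / 2 := by
    have h3 : (T : ℝ) ≤ 2 ^ T := by exact_mod_cast Nat.lt_two_pow_self.le
    have h4 : (I : ℝ) ≤ 2 ^ T := le_trans (by exact_mod_cast hI) h3
    calc _ ≤ (2 ^ T : ℝ) ^ 3 * (2 ^ T * ((2 ^ T : ℕ) * (1 / 2) ^ (5 * T + 1))) := by gcongr
      _ = 1 / 2 := by
        push_cast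
        rw [one_div, inv_pow]
        field_simp
        ring
  refine (mul_le_mul_of_nonneg_right hx (by positivity)).trans_lt ?_
  rw [mul_add]
  linarith

/-- The strings of length `m`. -/
def strs (m : ℕ) : Finset (List Bool) := univ.image (List.ofFn : (Fin m → Bool) → List Bool)

theorem mem_strs {m : ℕ} {x : List Bool} : x ∈ strs m ↔ x.length = m :=
  ⟨fun h => by obtain ⟨f, -, rfl⟩ := mem_image.1 h; simp,
    fun h => by subst h; exact mem_image.2 ⟨x.get, mem_univ _, by simp⟩⟩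

theorem card_strs (m : ℕ) : (strs m).card = 2 ^ m := by
  rw [strs, card_image_of_injective _ List.ofFn_injective]
  simp

theorem ncard_le_ind {α : Type} (s : Finset α) (p : α → Prop) {A : Set α}
    (h : ∀ r ∈ A, r ∈ s ∧ p r) : (A.ncard : ℝ) ≤ ∑ r ∈ s, ind (p r) := by
  classical
  rw [sum_congr rfl fun r _ => show ind (p r) = if p r then 1 else 0 from rfl, sum_boole,
    ← Set.ncard_coe_finset]
  exact_mod_cast Set.ncard_le_ncard (fun r hr => mem_coe.2 (mem_filter.2 (h r hr))) (finite_toSet _)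

variable (mc : ℕ → Tw × Bool) (rq : ℕ → Rq) (S : ℕ → Polynomial ℕ)

/-- Few samples have an answer that is not determined at length `t`. -/
def Gd (ξ : Rq) (θ : Lang) (R : ℕ → Set Lang) (t n : ℕ) : Prop :=
  {r : List Bool | r.length = ξ.2.2.2.eval n ∧ ¬∃ b, ∀ θ' ∈ R t, ev ξ.1.1 ξ.1.2
    (join θ' (hlp mc R)) (smp ξ.2.1 ξ.2.2.1 (join θ (hlp mc R)) (tag n r)) = b}.ncard * t ≤
      2 ^ ξ.2.2.2.eval n

/-- The answers at length `t` are correct and serve the first `e + 1` samplers. -/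
def Pt (e : ℕ) (θ : Lang) (R : ℕ → Set Lang) (t : ℕ) : Prop :=
  (∃ θ' ∈ R t, ∀ w, w.length < t → θ' w = θ w) ∧ ∀ e' ≤ e, ∀ n,
    ((S e').eval n + 1) ^ 2 ^ ((rq e').1.2.length + 1) ≤ t → Gd mc (rq e') θ R t n

/-- Agreement below the length `T`. -/
def Agr (T : ℕ) (θ : Lang) (R : ℕ → Set Lang) (θ' : Lang) (R' : ℕ → Set Lang) : Prop :=
  (∀ w, w.length < T → θ w = θ' w) ∧ ∀ t < T, R t = R' t

/-- The tower computes neither test language. -/
def Dg (tw : Tw) (A : Lang) : Prop :=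
  ∃ x, ev tw.1 tw.2 A x ≠ gl2 A (tw.2.length + 1) x ∧ ev tw.1 tw.2 A x ≠ par2 A x

theorem stage_core (hS : ∀ e, Bnd (rq e) (S e)) (e : ℕ) (tw : Tw) {K a I n T T₀ : ℕ}
    (hK : K = tw.2.length + 3) (hn : n = a * 4 * (3 * 2 ^ K + 1) ^ I) (hT : T = n ^ 2 ^ I)
    (h2 : 2 ≤ n)
    (hloc : ∀ (A A' : Lang) x, x.length ≤ 18 * (K * n) + 42 * n + 7 →
      (∀ v, v.length ≤ T → A v = A' v) → ev tw.1 tw.2 A x = ev tw.1 tw.2 A' x)
    (hAC : ∀ (σ : Lang → Lang) x, x.length ≤ 18 * (K * n) + 42 * n + 7 →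
      (∀ v, DT 1 fun z => σ z v) → AC T (2 ^ T) tw.2.length {fun z => ev tw.1 tw.2 (σ z) x})
    (hKn : K * n < T) (he : e + 1 ≤ T) (hI : I ≤ T)
    (hq : 8 * (T ^ 3 * (T * K + ((5 * T + 1) * T) ^ I * (T * K))) < 2 ^ a)
    (hq' : 8 * (((5 * T + 1) * T) ^ tw.2.length * T) ≤ 2 ^ a) (h0 : T₀ ≤ n) (θ₀ : Lang)
    (R₀ : ℕ → Set Lang) : ∃ θ R, Agr T₀ θ₀ R₀ θ R ∧ ∀ θ' R', Agr T θ R θ' R' →
      (∀ t, T₀ ≤ t → t < T → Pt mc rq S e θ' R' t) ∧ Dg tw (join θ' (hlp mc R')) := by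
  classical
  have ha : a ≠ 0 := by rintro rfl; simp at hn; omega
  have : NeZero a := ⟨ha⟩
  have hnK : n ≤ K * n := Nat.le_mul_of_pos_left _ (by omega)
  let L := (Fin 3 → Fin a → Bool) × (Fin a → Bool)
  have hL : Fintype.card L = 2 ^ (a * 4) := by simp [L, ← pow_mul, ← pow_add]; ring
  have hL' : 2 ^ a ≤ Fintype.card L := hL ▸ Nat.pow_le_pow_right (by norm_num) (by omega)
  let β : Lab (3 * 2 ^ K) L I ≃ (Fin n → Bool) := Fintype.equivOfCardEq (by
    rw [card_lab, hL, ← pow_mul, ← hn]; simp)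
  let Rw : (ℕ → Set Lang) → ℕ → Set Lang := fun R t => if t < T₀ then R₀ t else R (I - lvl n t)
  let Tq := (range (e + 1) ×ˢ range T).filter fun q => (S q.1).eval q.2 < T ∧
    lvl n ((S q.1).eval q.2) + ((rq q.1).1.2.length + 1) ≤ I
  let Tp := Tq.sigma fun q => strs ((rq q.1).2.2.2.eval q.2)
  have hT1 : 1 ≤ T := by omega
  have hT3 : 1 ≤ T ^ 3 := Nat.pow_pos hT1
  obtain ⟨τ, R, b1, b2, b3, b4, b5, b6⟩ := rounds (w := T) (N := 2 ^ T) (s := 5 * T + 1)
    (d := T * K) hT1 (by omega) (by omega) (by nlinarith) (lf_plant (K := K) β θ₀)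
    (Z := fun (l : {l : List (Lab (3 * 2 ^ K) L I) // l.length = 2}) θ =>
      nv n (tw.2.length + 1) θ (code β l.1))
    (fun l hl => ⟨⟨l, hl⟩, fun c => nv_plant β θ₀ c _ (by simp only; omega)⟩) Tp
    (fun j => T / 2 ^ (rq j.1.1).2.2.2.eval j.1.2) (fun j => by positivity)
    (fun j => lvl n ((S j.1.1).eval j.1.2)) (fun j => (rq j.1.1).1.2.length)
    (fun j hj => (mem_filter.1 (mem_sigma.1 hj).1).2.2)
    (fun j R θ => smp (rq j.1.1).2.1 (rq j.1.1).2.2.1 (join θ (hlp mc (Rw R))) (tag j.1.2 j.2))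
    (fun j R y θ => ev (rq j.1.1).1.1 (rq j.1.1).1.2 (join θ (hlp mc (Rw R))) y)
    (fun j hj R R' Θ hR ⟨y, b, h⟩ => ⟨y, b, fun θ hθ => by
      obtain ⟨-, -, c1, -⟩ := hS j.1.1 j.1.2 j.2 (mem_strs.1 (mem_sigma.1 hj).2)
      obtain ⟨c2, c3⟩ := c1 (join θ (hlp mc (Rw R))) (join θ (hlp mc (Rw R')))
        (join_congr (fun _ _ => rfl) (hlp_congr mc fun t ht => if_congr Iff.rfl rfl
          (hR _ (Nat.sub_le_sub_left (lvl_mono n ht.le) _))))
      exact ⟨c2.symm.trans (h θ hθ).1,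
        (c3 y ((h θ hθ).1 ▸ length_smp ..)).symm.trans (h θ hθ).2⟩⟩)
    (fun j hj R => by
      obtain ⟨-, c1, -, c2⟩ := hS j.1.1 j.1.2 j.2 (mem_strs.1 (mem_sigma.1 hj).2)
      have c3 := (mem_filter.1 (mem_sigma.1 hj).1).2.1
      refine ⟨fun Λ _ τ hτ c => ?_, lists _, (card_lists _).le.trans
        (Nat.pow_le_pow_right (by norm_num) (c1.trans_lt c3)), fun θ => mem_lists.2
          (length_smp ..), (c2 _ T (dt_join (hlp mc (Rw R))) c3.le).mono ?_⟩
      · obtain ⟨D, d1, d2, d3⟩ := clkO_cert cl_anc (O := fun c => join (τ c) (hlp mc (Rw R)))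
          (fun w => hτ.dt (dt_join _ w)) (rq j.1.1).2.1 _ _ (true :: true :: tag j.1.2 j.2) c
        exact ⟨D, d1, d2.trans (Nat.mul_le_mul (c1.trans c3.le) (one_mul _).le), fun c' hc =>
          congrArg (fun l : List Bool => l.tail.take _) (d3 c' hc)⟩
      · rintro _ ⟨y, hy, rfl⟩
        exact ⟨y, mem_lists.1 hy, rfl⟩)
    (eps_lt (by
      rw [sum_sigma]
      refine (sum_le_card_nsmul _ _ (T : ℝ) fun q _ => le_of_eq ?_).trans ?_
      · simp only [sum_const, card_strs, nsmul_eq_mul]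
        push_cast
        field_simp
      · have h1 : Tq.card ≤ T * T := (card_filter_le _ _).trans (by
          rw [card_product, card_range, card_range]; gcongr)
        rw [nsmul_eq_mul, pow_succ, pow_two]
        gcongr
        exact_mod_cast h1) hI (hq.trans_le hL'))
  subst hK
  obtain ⟨u, hu⟩ := b2 [default, default] rfl
  let x := bitEncode (bitEncode (List.replicate n false,
    List.replicate ((tw.2.length + 1) * n) false), code β u.1)
  have hu2 : (code β u.1).length = 2 * n := by rw [length_code, u.2]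
  have hx : x.length ≤ 18 * ((tw.2.length + 3) * n) + 42 * n + 7 := by
    simp only [x, length_enc_pair, PolyT.Poly.enc_bools_length, List.length_replicate, hu2]
    nlinarith
  obtain ⟨c, hc⟩ := h_final (by simp) b1 hT1 (s := 5 * T + 1)
    (Nat.pow_lt_pow_right (by norm_num) (by omega)) Nat.one_le_two_pow (by simpa using hq')
    (hAC _ x hx (dt_join (hlp mc (Rw R)))) default default
  have hθ : ∀ i, τ c ∈ R i := fun i => b4 (Nat.zero_le i) (b3 ▸ Set.mem_range_self c)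
  have hout : ∀ i ≤ I, ∀ θ ∈ R i, ∀ w, w.length < (tw.2.length + 3) * n → θ w = θ₀ w := by
    intro i hi θ h w hw
    obtain ⟨c', rfl⟩ := b5 ▸ b4 hi h
    exact plant_out β θ₀ c' hw.ne
  refine ⟨τ c, Rw R, ⟨fun w hw => (hout I le_rfl _ (hθ I) w (by omega)).symm,
    fun t ht => (if_pos ht).symm⟩, fun θ' R' hA => ?_⟩
  have hj : ∀ θ₁ v, v.length ≤ T → join θ₁ (hlp mc (Rw R)) v = join θ₁ (hlp mc R') v := fun θ₁ =>
    join_congr (fun _ _ => rfl) (hlp_congr mc hA.2)
  have hj' : ∀ v, v.length ≤ T → join (τ c) (hlp mc (Rw R)) v = join θ' (hlp mc R') v :=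
    join_congr hA.1 (hlp_congr mc hA.2)
  refine ⟨fun t t1 t2 => ?_, x, ?_⟩
  · have e1 : R' t = R (I - lvl n t) := (hA.2 t t2).symm.trans (if_neg t1.not_gt)
    refine ⟨⟨τ c, e1 ▸ hθ _, fun w hw => hA.1 w (by omega)⟩, fun e' he' m hm => ?_⟩
    have h3 : (S e').eval m < T :=
      ((Nat.le_self_pow (by positivity) _).trans hm).trans_lt t2 |>.le
    unfold Gd
    rcases lt_or_ge ((S e').eval m) n with h4 | h4
    · refine le_trans (Nat.mul_le_mul_right _ (Set.ncard_le_ncard (t := ∅) (fun r hr => hr.2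
        ⟨_, fun θ₁ h₁ => ((hS e' m r hr.1).2.2.1 _ (join θ₀ (hlp mc R')) (join_congr (fun v hv =>
          hout _ (Nat.sub_le _ _) _ (e1 ▸ h₁) v (by omega)) fun _ _ => rfl)).2 _ (length_smp ..)⟩)
          Set.finite_empty)) (by simp)
    have h5 := lvl_add h2 h4 hm
    have h6 := lvl_le (hT ▸ t2)
    obtain ⟨r₀, hr₀⟩ : ∃ r : List Bool, r.length = (rq e').2.2.2.eval m :=
      ⟨List.replicate _ false, List.length_replicate⟩
    have h7 : (e', m) ∈ Tq := mem_filter.2 ⟨mem_product.2 ⟨mem_range.2 (by omega), mem_range.2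
      ((hS e' m r₀ hr₀).1.trans_lt h3)⟩, h3, h5.trans h6⟩
    rw [sum_sigma] at b6
    have h8 := (single_le_sum (fun q _ => sum_nonneg fun r _ =>
      mul_nonneg (by positivity) (ind_nonneg _)) h7).trans_lt b6
    simp only [← mul_sum] at h8
    rw [div_mul_eq_mul_div, div_lt_one (by positivity), mul_comm] at h8
    refine Nat.cast_le (α := ℝ).1 ((Nat.cast_mul _ _).trans_le ((mul_le_mul (ncard_le_ind _ _
      fun r hr => ⟨mem_strs.2 hr.1, fun ⟨y, b, h⟩ => hr.2 ⟨b, fun θ₁ h₁ => ?_⟩⟩)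
      (Nat.cast_le.2 t2.le) (by positivity) (sum_nonneg fun _ _ => ind_nonneg _)).trans
      (h8.le.trans_eq (by simp))))
    obtain ⟨-, -, c1, -⟩ := hS e' m r hr.1
    beta_reduce at h
    rw [← (c1 _ _ fun v hv => hj' v (by omega)).1,
      ← (c1 _ _ fun v hv => hj θ₁ v (by omega)).2 _ (length_smp ..), (h _ (hθ _)).1]
    exact (h θ₁ (b4 (by omega) (e1 ▸ h₁))).2
  · obtain ⟨c', hc'⟩ := b5 ▸ hθ I
    have e1 : ∀ w, w.length = (tw.2.length + 1) * n + 2 * n →
        join θ' (hlp mc R') (false :: w) = τ c w := fun w hw => (hA.1 w (by nlinarith)).symm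
    rw [← hloc _ _ x hx hj']
    simp only [gl2, par2, x, row_enc, col_enc, List.length_replicate]
    rw [nv_congr fun j hj => e1 j (hu2 ▸ hj), xr_congr (a' := τ c)
      (a := fun j => join θ' (hlp mc R') (false :: j)) fun w hw => e1 _ (by simp [hw, hu2])]
    beta_reduce at hu
    refine ⟨hu c ▸ hc, ne_of_ne_of_eq hc ?_⟩
    rw [← hu, ← hc', nv_plant β θ₀ c' _ (by rw [u.2]; omega),
      xr_plant β (by omega) θ₀ c' _ (by rw [u.2]; omega)]

theorem stage (hS : ∀ e, Bnd (rq e) (S e)) (e : ℕ) (tw : Tw) (T₀ : ℕ) (θ₀ : Lang)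
    (R₀ : ℕ → Set Lang) : ∃ T > T₀, ∃ θ R, Agr T₀ θ₀ R₀ θ R ∧ ∀ θ' R', Agr T θ R θ' R' →
      (∀ t, T₀ ≤ t → t < T → Pt mc rq S e θ' R' t) ∧ Dg tw (join θ' (hlp mc R')) := by
  obtain ⟨B, h1, h2⟩ := ev_bound tw.1 tw.2
  set K := tw.2.length + 3 with hK
  obtain ⟨c, hc⟩ := poly_le_pow (B.comp (18 * ((K : Polynomial ℕ) * Polynomial.X) +
    42 * Polynomial.X + 7) + (K : Polynomial ℕ) * Polynomial.X + 1)
  let N : Polynomial ℕ := Polynomial.X * 4 * (3 * 2 ^ K + 1) ^ (2 * c)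
  let T := N ^ 2 ^ (2 * c)
  obtain ⟨a, e1, e2, e3⟩ := ((poly_le_two_pow
    (8 * (T ^ 3 * (T * K + ((5 * T + 1) * T) ^ (2 * c) * (T * K))) + 1) 1 one_pos).and
    ((poly_le_two_pow (8 * (((5 * T + 1) * T) ^ tw.2.length * T)) 1 one_pos).and
      (Filter.eventually_ge_atTop (T₀ + e + 2 * c + 2)))).exists
  have hN : N.eval a = a * 4 * (3 * 2 ^ K + 1) ^ (2 * c) := by simp [N]
  have hT : T.eval a = N.eval a ^ 2 ^ (2 * c) := by simp [T]
  have h3 : a ≤ N.eval a := by
    rw [hN, mul_assoc]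
    exact Nat.le_mul_of_pos_right _ (by positivity)
  have h4 : N.eval a ≤ K * N.eval a := Nat.le_mul_of_pos_left _ (by omega)
  have h5 : B.eval (18 * (K * N.eval a) + 42 * N.eval a + 7) + K * N.eval a + 1 ≤ T.eval a := by
    have h6 := hc (N.eval a)
    simp only [Polynomial.eval_add, Polynomial.eval_comp, Polynomial.eval_mul, Polynomial.eval_X,
      Polynomial.eval_natCast, Polynomial.eval_ofNat, Polynomial.eval_one, Nat.cast_id] at h6
    refine h6.trans (hT ▸ le_trans ?_ (Nat.pow_le_pow_right (by omega) Nat.lt_two_pow_self.le))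
    rw [pow_mul]
    exact Nat.pow_le_pow_left (by nlinarith) _
  exact ⟨T.eval a, by omega, stage_core mc rq S hS e tw hK hN hT (by omega)
    (fun A A' x hx h => h1 A A' x _ hx fun v hv => h v (by omega))
    (fun σ x hx hσ => (h2 _ σ _ _ _ hσ (by omega) (Nat.pow_le_pow_right (by norm_num)
      (by omega))).mono (Set.singleton_subset_iff.2 ⟨_, hx, rfl⟩))
    (by omega) (by omega) (by omega) (by simpa using e1) (by simpa using e2) (by omega) θ₀ R₀⟩

theorem exists_lim (hS : ∀ e, Bnd (rq e) (S e)) (tw : ℕ → Tw) : ∃ θ R,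
    (∀ e, ∃ t₀, ∀ t ≥ t₀, ∃ e' ≥ e, Pt mc rq S e' θ R t) ∧
      (∀ t, ∃ e, Pt mc rq S e θ R t) ∧ ∀ e, Dg (tw e) (join θ (hlp mc R)) := by
  classical
  choose F hF G H h1 h2 using fun (e : ℕ) (a : ℕ × Lang × (ℕ → Set Lang)) =>
    stage mc rq S hS e (tw e) a.1 a.2.1 a.2.2
  let a : ℕ → ℕ × Lang × (ℕ → Set Lang) := fun i =>
    Nat.rec (0, fun _ => false, fun _ => ∅) (fun e a => (F e a, G e a, H e a)) i
  have hmono : StrictMono fun i => (a i).1 := strictMono_nat_of_lt_succ fun i => hF i (a i)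
  have hag : ∀ i j, i ≤ j → Agr (a i).1 (a i).2.1 (a i).2.2 (a j).2.1 (a j).2.2 := by
    intro i j hij
    induction j, hij using Nat.le_induction with
    | base => exact ⟨fun _ _ => rfl, fun _ _ => rfl⟩
    | succ j hij ih =>
      have h3 := h1 j (a j)
      have h4 := hmono.monotone hij
      exact ⟨fun w hw => (ih.1 w hw).trans (h3.1 w (hw.trans_le h4)),
        fun w hw => (ih.2 w hw).trans (h3.2 w (hw.trans_le h4))⟩
  have hlim : ∀ i, Agr (a i).1 (a i).2.1 (a i).2.2 (fun w => (a (w.length + 1)).2.1 w)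
      fun t => (a (t + 1)).2.2 t := by
    refine fun i => ⟨fun w hw => ?_, fun w hw => ?_⟩
    · rcases le_total i (w.length + 1) with h | h
      · exact (hag _ _ h).1 w hw
      · exact ((hag _ _ h).1 w (hmono.le_apply (x := w.length + 1))).symm
    · rcases le_total i (w + 1) with h | h
      · exact (hag _ _ h).2 w hw
      · exact ((hag _ _ h).2 w (hmono.le_apply (x := w + 1))).symm
  have key : ∀ e t, (a e).1 ≤ t → ∃ e' ≥ e, Pt mc rq S e' (fun w => (a (w.length + 1)).2.1 w)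
      (fun t => (a (t + 1)).2.2 t) t := by
    intro e t ht
    have h3 : ∃ i, t < (a (i + 1)).1 := ⟨t, hmono.le_apply (x := t + 1)⟩
    have h4 := Nat.find_spec h3
    have h5 : (a (Nat.find h3)).1 ≤ t := by
      rcases h : Nat.find h3 with _ | i
      · exact Nat.zero_le _
      · exact not_lt.1 (Nat.find_min h3 (by omega))
    exact ⟨_, Nat.lt_succ_iff.1 (hmono.lt_iff_lt.1 (ht.trans_lt h4)),
      (h2 _ (a _) _ _ (hlim (_ + 1))).1 t h5 h4⟩
  exact ⟨_, _, fun e => ⟨_, key e⟩, fun t => (key 0 t (Nat.zero_le _)).imp fun _ h => h.2,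
    fun e => (h2 e (a e) _ _ (hlim (e + 1))).2⟩

theorem exists_oracle : ∃ A : Lang,
    (∀ k, ∀ L ∈ RelSigma A k, ∀ g ∈ RelFP A, ∀ p, RelAvgP A L g p) ∧
    (∀ k, ∃ L ∈ RelSigma A (k + 1), L ∉ RelSigma A k) ∧
    ∃ L ∈ RelPSPACE A, ∀ k, L ∉ RelSigma A k := by
  obtain ⟨mc, hmc⟩ := exists_surjective_nat (Tw × Bool)
  obtain ⟨rq, hrq⟩ := exists_surjective_nat Rq
  choose S hS using fun e => exists_bnd (rq e)
  obtain ⟨θ, R, h1, h2, h3⟩ := exists_lim mc rq S hS fun e => (mc e).1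
  refine ⟨join θ (hlp mc R), fun k L hL g hg p => ?_, fun k => ⟨_, gl2_mem _ _, fun h => ?_⟩,
    _, par2_mem _, fun k h => ?_⟩
  · obtain ⟨b, l, rfl⟩ := exists_ev hL
    obtain ⟨M, q, rfl⟩ := exists_smp hg
    obtain ⟨e, he⟩ := hrq ((b, l), M, q, p)
    choose ε hε using fun β => hmc ((b, l), β)
    obtain ⟨t₀, ht₀⟩ := h1 e
    obtain ⟨F, hF, hF'⟩ := exists_list_eval (l := fun c : List Bool => sel true c) (by fun_prop)
      ((S e + 1) ^ 2 ^ (l.length + 1) + t₀)
    let u : List Bool → List Bool := fun c =>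
      ((F c).map fun _ => false) ++ sel true (sel false c)
    have hQ := fun β => one_query (Q := fun c => true :: ad (u c) (sel false (sel false c)) (ε β))
      (by fun_prop) false (join θ (hlp mc R))
    refine ⟨_, hQ true, _, hQ false, fun n m => ?_⟩
    set t := ((S e).eval n + 1) ^ 2 ^ (l.length + 1) + t₀ + m with ht
    have h4 : (S e).eval n < t := by
      have := Nat.le_self_pow (n := 2 ^ (l.length + 1)) (by positivity) ((S e).eval n + 1)
      omega
    have key : ∀ r β, r.length = p.eval n → (xor false (join θ (hlp mc R) (true :: ad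
        (u (tag n (tag m (smp M q (join θ (hlp mc R)) (tag n r)))))
        (sel false (sel false (tag n (tag m (smp M q (join θ (hlp mc R)) (tag n r)))))) (ε β))) =
          true ↔ ∀ θ' ∈ R t, ev b l (join θ' (hlp mc R))
            (smp M q (join θ (hlp mc R)) (tag n r)) = β) := by
      intro r β hr
      have h5 := hS e n r (he ▸ hr)
      rw [he] at h5
      have h6 : (u (tag n (tag m (smp M q (join θ (hlp mc R)) (tag n r))))).length = t := by
        simp [u, hF', tag, sel_pair, ht]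
      rw [Bool.false_xor, join, hlp_ad, h6, hε]
      refine forall₂_congr fun θ' _ => ?_
      rw [show sel false (sel false (tag n (tag m (smp M q (join θ (hlp mc R)) (tag n r))))) =
        smp M q (join θ (hlp mc R)) (tag n r) by simp [tag, sel_pair],
        (h5.2.2.1 _ (join θ' (hlp mc R)) fun v hv => by
          simp [trunc, hv.trans_lt h4]).2 _ (length_smp ..)]
    constructor
    · intro r hr
      obtain ⟨_, ⟨θ', a1, a2⟩, -⟩ := h2 t
      have h5 := hS e n r (he ▸ hr)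
      rw [he] at h5
      have h6 := (h5.2.2.1 (join θ' (hlp mc R)) (join θ (hlp mc R)) fun v hv =>
        join_congr a2 (fun _ _ => rfl) v (hv.trans h4.le)).2 _
          (length_smp M q (join θ (hlp mc R)) (tag n r))
      exact ⟨fun h => h6.symm.trans ((key r _ hr).1 h θ' a1),
        fun h => h6.symm.trans ((key r _ hr).1 h θ' a1)⟩
    · obtain ⟨e', a1, -, a2⟩ := ht₀ t (by omega)
      have h5 := a2 e a1 n (by simp only [he]; omega)
      rw [he] at h5
      refine le_trans (Nat.mul_le_mul (Set.ncard_le_ncard (fun r hr => ?_)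
        ((List.finite_length_eq Bool (p.eval n)).subset fun r hr => hr.1)) (by omega)) h5
      refine ⟨hr.1, fun ⟨β, h⟩ => ?_⟩
      have h6 := (key r β hr.1).2 h
      cases β
      · exact absurd (hr.2.2.symm.trans h6) (by simp)
      · exact absurd (hr.2.1.symm.trans h6) (by simp)
  · obtain ⟨b, l, rfl, h⟩ := exists_ev' h
    obtain ⟨e, he⟩ := hmc ((b, l), true)
    obtain ⟨x, hx, -⟩ := h3 e
    rw [he] at hx
    exact hx (congrFun h x).symm
  · obtain ⟨b, l, h⟩ := exists_ev h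
    obtain ⟨e, he⟩ := hmc ((b, l), true)
    obtain ⟨x, -, hx⟩ := h3 e
    rw [he] at hx
    exact hx (congrFun h x).symm

end Pool.Agent.MP_a2d820_lc.h55
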